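import Pool.Agent.Lib.MP_7cd5bf_an.Defs

set_option autoImplicit false

namespace Pool.Agent.Lib.MP_7cd5bf_an

open Finset

def avgSet (n : ℕ) : Set (ℕ × C00) := ⋃ m, (stage n m).2

theorem stage_mono1 (n : ℕ) : Monotone fun m => (stage n m).1 :=
  monotone_nat_of_le_succ fun _ _ hf => Or.inl (Or.inl hf)

theorem stage_mono2 (n : ℕ) : Monotone fun m => (stage n m).2 :=
  monotone_nat_of_le_succ fun _ _ hf => Or.inl hf

theorem exists_stage1 {n d : ℕ} {f : Fin (d + 1) → C00} (h : ∀ q, f q ∈ normingSet n) :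
    ∃ m, ∀ q, f q ∈ (stage n m).1 := by
  choose g hg using fun q => Set.mem_iUnion.1 (h q)
  exact ⟨Finset.univ.sup g, fun q =>
    stage_mono1 n (Finset.le_sup (f := g) (Finset.mem_univ q)) (hg q)⟩

theorem exists_stage2 {n d : ℕ} {f : Fin (d + 1) → ℕ × C00} (h : ∀ q, f q ∈ avgSet n) :
    ∃ m, ∀ q, f q ∈ (stage n m).2 := by
  choose g hg using fun q => Set.mem_iUnion.1 (h q)
  exact ⟨Finset.univ.sup g, fun q =>
    stage_mono2 n (Finset.le_sup (f := g) (Finset.mem_univ q)) (hg q)⟩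

theorem unit_mem (n : ℕ) {i : ℕ} (hi : 1 ≤ i) : unitVec i ∈ normingSet n :=
  Set.mem_iUnion.2 ⟨0, i, hi, Or.inl rfl⟩

theorem avg_mem {n l d : ℕ} {f : ℕ → C00} (hf : ∀ q, f q ∈ normingSet n)
    (hb : ∀ q q', q < q' → Before (f q) (f q')) (hl : 2 ≤ l) (hd : d + 1 ≤ l) :
    (l, (l : ℝ)⁻¹ • ∑ q ∈ range (d + 1), f q) ∈ avgSet n := by
  obtain ⟨m, hm⟩ := exists_stage1 (d := d) (f := fun q => f q) fun q => hf q
  refine Set.mem_iUnion.2 ⟨m + 1, Or.inr ⟨d, fun q => f q, hm, fun q q' h => hb _ _ h, hl, hd, ?_⟩⟩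
  simp only [Finset.sum_range]

theorem sum_mem {n : ℕ} {Q : Finset ℕ} (hQ : Q.Nonempty) {s : ℕ → ℕ} {α : ℕ → C00}
    (hα : ∀ q ∈ Q, (s q, α q) ∈ avgSet n)
    (hb : ∀ q ∈ Q, ∀ q' ∈ Q, q < q' → Before (α q) (α q'))
    (hS : Q.image (fun q => minSupp (α q)) ∈ schreier n)
    (hs : ∀ q ∈ Q, ∀ q' ∈ Q, q < q' → s q < s q')
    (hg : ∀ q ∈ Q, ∀ q' ∈ Q, q < q' → maxSupp (α q) < s q') :
    ∑ q ∈ Q, α q ∈ normingSet n := by
  obtain ⟨d, hd⟩ : ∃ d, Q.card = d + 1 := Nat.exists_eq_succ_of_ne_zero hQ.card_pos.ne'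
  let e := Q.orderEmbOfFin hd
  have he : ∀ q, e q ∈ Q := Q.orderEmbOfFin_mem hd
  have him : Finset.univ.image e = Q := by
    apply Finset.coe_injective
    rw [Finset.coe_image, Finset.coe_univ, Set.image_univ]
    exact Q.range_orderEmbOfFin hd
  obtain ⟨m, hm⟩ := exists_stage2 (n := n) (f := fun q => (s (e q), α (e q))) fun q => hα _ (he q)
  refine Set.mem_iUnion.2 ⟨m + 1, Or.inr ⟨d, fun q => s (e q), fun q => α (e q), hm,
    fun q q' h => hb _ (he q) _ (he q') (e.strictMono h), ?_,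
    fun q q' h => hs _ (he q) _ (he q') (e.strictMono h),
    fun q => hg _ (he _) _ (he _) (e.strictMono q.castSucc_lt_succ), ?_⟩⟩
  · have : (Finset.univ.image fun q => minSupp (α (e q))) = Q.image (fun q => minSupp (α q)) := by
      rw [← him, Finset.image_image]; rfl
    rw [this]; exact hS
  · rw [← him, Finset.sum_image fun x _ y _ h => e.injective h]

theorem schreier_union {k d : ℕ} {G : ℕ → Finset ℕ} (hG : ∀ b, G b ∈ schreier k)
    (hs : ∀ b b', b < b' → ∀ x ∈ G b, ∀ y ∈ G b', x < y) (hd : ∀ x ∈ G 0, d + 1 ≤ x) :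
    (range (d + 1)).biUnion G ∈ schreier (k + 1) := by
  refine ⟨d, fun q => G q, fun q => hG q, fun q q' h => hs _ _ h, hd, ?_⟩
  ext x
  simp only [Finset.mem_biUnion, Finset.mem_range, Finset.mem_univ, true_and]
  exact ⟨fun ⟨b, hb, hx⟩ => ⟨⟨b, hb⟩, hx⟩, fun ⟨b, hx⟩ => ⟨b, b.2, hx⟩⟩

theorem singleton_mem {x : ℕ} (hx : 1 ≤ x) : ∀ k, ({x} : Finset ℕ) ∈ schreier k
  | 0 => ⟨x, hx, rfl⟩
  | k + 1 => ⟨0, fun _ => {x}, fun _ => singleton_mem hx k,
      fun q q' h => absurd h (by have := q.2; have := q'.2; simp only [Fin.lt_def]; omega),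
      by simpa using hx, by ext y; simp⟩

theorem schreier_insert {k d x : ℕ} {G : ℕ → Finset ℕ} (hG : ∀ b, G b ∈ schreier k)
    (hs : ∀ b b', b < b' → ∀ x ∈ G b, ∀ y ∈ G b', x < y) (hd : d + 1 ≤ x)
    (hx : ∀ b, ∀ y ∈ G b, x < y) :
    insert x ((range d).biUnion G) ∈ schreier (k + 1) := by
  have := schreier_union (k := k) (d := d)
    (G := fun b => Nat.casesOn b ({x} : Finset ℕ) G)
    (fun b => by
      cases b with
      | zero => exact singleton_mem (by omega) k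
      | succ b => exact hG b)
    (fun b b' h => by
      cases b' with
      | zero => omega
      | succ b' =>
        cases b with
        | zero =>
          intro y hy z hz
          rw [Finset.mem_singleton.1 hy]; exact hx b' z hz
        | succ b => exact hs b b' (by omega))
    (fun y hy => by rw [Finset.mem_singleton.1 hy]; exact hd)
  convert this using 1
  ext y
  simp only [Finset.mem_insert, Finset.mem_biUnion, Finset.mem_range]
  constructor
  · rintro (rfl | ⟨b, hb, hy⟩)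
    · exact ⟨0, by omega, by simp⟩
    · exact ⟨b + 1, by omega, hy⟩
  · rintro ⟨b, hb, hy⟩
    cases b with
    | zero => exact Or.inl (Finset.mem_singleton.1 hy)
    | succ b => exact Or.inr ⟨b, by omega, hy⟩

/-- Sanity check: `S_1` is the family of nonempty sets `F` of positive integers with
`#F ≤ min F`. -/
theorem mem_schreier_one (F : Finset ℕ) :
    F ∈ schreier 1 ↔ F.Nonempty ∧ ∀ x ∈ F, F.card ≤ x := by
  constructor
  · rintro ⟨d, G, hG, hs, hd, rfl⟩
    choose y hy1 hy2 using hG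
    have hmem : ∀ q, y q ∈ G q := fun q => by rw [hy2 q]; simp
    refine ⟨⟨y 0, Finset.mem_biUnion.2 ⟨0, Finset.mem_univ _, hmem 0⟩⟩, fun x hx => ?_⟩
    obtain ⟨q, _, hq⟩ := Finset.mem_biUnion.1 hx
    have h1 : (Finset.univ.biUnion G).card ≤ d + 1 := by
      refine Finset.card_biUnion_le.trans ?_
      simp [hy2]
    refine h1.trans ?_
    rcases eq_or_ne q 0 with rfl | h0
    · exact hd x hq
    · exact (hd _ (hmem 0)).trans (hs 0 q (Fin.pos_iff_ne_zero.2 h0) _ (hmem 0) x hq).le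
  · rintro ⟨hF, hc⟩
    obtain ⟨d, hd⟩ : ∃ d, F.card = d + 1 := Nat.exists_eq_succ_of_ne_zero hF.card_pos.ne'
    let e := F.orderEmbOfFin hd
    have he : ∀ q, e q ∈ F := F.orderEmbOfFin_mem hd
    refine ⟨d, fun q => {e q}, fun q => ⟨e q, by have := hc _ (he q); omega, rfl⟩, ?_, ?_, ?_⟩
    · intro q q' h x hx y hy
      rw [Finset.mem_singleton.1 hx, Finset.mem_singleton.1 hy]
      exact e.strictMono h
    · intro x hx
      rw [Finset.mem_singleton.1 hx]; exact hd.symm.le.trans (hc _ (he 0))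
    · ext x
      simp only [Finset.mem_biUnion, Finset.mem_univ, true_and, Finset.mem_singleton]
      constructor
      · intro hx
        have : x ∈ Set.range e := by rw [F.range_orderEmbOfFin hd]; exact hx
        obtain ⟨q, hq⟩ := this
        exact ⟨q, hq.symm⟩
      · rintro ⟨q, rfl⟩; exact he q

end Pool.Agent.Lib.MP_7cd5bf_an
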