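import Pool.Agent.Lib.MP_7cd5bf_an.Defs
import Pool.Agent.Lib.MP_7cd5bf_an.Lower

-- part Pool.Agent.Lib.MP_7cd5bf_an.Tree
section

set_option autoImplicit false

/-!
A slightly larger, more flexible class of functionals, used for upper estimates of the norm.
-/

namespace Pool.Agent.Lib.MP_7cd5bf_an

open Finset

def Bef (f g : ℕ → ℝ) : Prop := ∀ x y, f x ≠ 0 → g y ≠ 0 → x < y

def Adm (β : ℕ → ℕ → ℝ) : ℕ → Finset ℕ → Prop
  | 0, Q => Q.card ≤ 1
  | k + 1, Q => ∃ (d : ℕ) (g : ℕ → ℕ), (∀ q ∈ Q, g q < d) ∧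
      (∀ i, Adm β k (Q.filter fun q => g q = i)) ∧ ∀ q ∈ Q, ∀ x, β q x ≠ 0 → d ≤ x

inductive Tr (n : ℕ) : ℕ → (ℕ → ℝ) → Prop
  | base (f : ℕ → ℝ) (i : ℕ) (hi : 1 ≤ i) (h0 : ∀ x, x ≠ i → f x = 0) (h1 : |f i| ≤ 1) : Tr n 0 f
  | avg (l : ℕ) (R : Finset ℕ) (f : ℕ → ℕ → ℝ) (hf : ∀ r, r ∈ R → Tr n 0 (f r))
      (hb : ∀ r ∈ R, ∀ r' ∈ R, r < r' → Bef (f r) (f r')) (hl : 2 ≤ l) (hc : R.card ≤ l) :
      Tr n l (fun x => (l : ℝ)⁻¹ * ∑ r ∈ R, f r x)
  | ofAvg (l : ℕ) (f : ℕ → ℝ) (hl : 2 ≤ l) (h : Tr n l f) : Tr n 0 f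
  | sum (Q : Finset ℕ) (s : ℕ → ℕ) (β : ℕ → ℕ → ℝ) (hs : ∀ q ∈ Q, 2 ≤ s q)
      (hβ : ∀ q, q ∈ Q → Tr n (s q) (β q))
      (hb : ∀ q ∈ Q, ∀ q' ∈ Q, q < q' → Bef (β q) (β q'))
      (hg : ∀ q ∈ Q, ∀ q' ∈ Q, q < q' → ∀ x, β q x ≠ 0 → x < s q') (ha : Adm β n Q) :
      Tr n 0 (fun x => ∑ q ∈ Q, β q x)

structure Fam (n : ℕ) (Q : Finset ℕ) (s : ℕ → ℕ) (β : ℕ → ℕ → ℝ) : Prop where
  two : ∀ q ∈ Q, 2 ≤ s q
  tr : ∀ q ∈ Q, Tr n (s q) (β q)
  bef : ∀ q ∈ Q, ∀ q' ∈ Q, q < q' → Bef (β q) (β q')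
  grow : ∀ q ∈ Q, ∀ q' ∈ Q, q < q' → ∀ x, β q x ≠ 0 → x < s q'

theorem Fam.mono {n : ℕ} {Q Q' : Finset ℕ} {s : ℕ → ℕ} {β : ℕ → ℕ → ℝ} (h : Fam n Q s β)
    (hQ : Q' ⊆ Q) : Fam n Q' s β :=
  ⟨fun q hq => h.two q (hQ hq), fun q hq => h.tr q (hQ hq),
    fun q hq q' hq' => h.bef q (hQ hq) q' (hQ hq'), fun q hq q' hq' => h.grow q (hQ hq) q' (hQ hq')⟩

theorem Tr.zero {n l : ℕ} {f : ℕ → ℝ} (h : Tr n l f) : f 0 = 0 := by
  induction h with
  | base f i hi h0 h1 => exact h0 0 (by omega)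
  | avg l R f hf hb hl hc ih => simp [Finset.sum_eq_zero ih]
  | ofAvg l f hl h ih => exact ih
  | sum Q s β hs hβ hb hg ha ih => exact Finset.sum_eq_zero ih

theorem abs_sum_le_of_bef (R : Finset ℕ) (f : ℕ → ℕ → ℝ) (x : ℕ) (c : ℝ) (hc : 0 ≤ c)
    (hb : ∀ r ∈ R, ∀ r' ∈ R, r < r' → Bef (f r) (f r')) (h : ∀ r ∈ R, |f r x| ≤ c) :
    |∑ r ∈ R, f r x| ≤ c := by
  by_cases hx : ∃ r ∈ R, f r x ≠ 0
  · obtain ⟨r, hr, hrx⟩ := hx
    rw [Finset.sum_eq_single_of_mem r hr]
    · exact h r hr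
    · intro r' hr' hne
      by_contra hne0
      rcases lt_or_gt_of_ne hne with hlt | hlt
      · exact lt_irrefl _ (hb r' hr' r hr hlt x x hne0 hrx)
      · exact lt_irrefl _ (hb r hr r' hr' hlt x x hrx hne0)
  · push Not at hx
    rw [Finset.sum_eq_zero hx]; simpa using hc

theorem Tr.abs_le {n l : ℕ} {f : ℕ → ℝ} (h : Tr n l f) (x : ℕ) :
    |f x| ≤ if l = 0 then 1 else (l : ℝ)⁻¹ := by
  induction h with
  | base f i hi h0 h1 =>
    by_cases hx : x = i
    · simpa [hx] using h1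
    · simp [h0 x hx]
  | avg l R f hf hb hl hc ih =>
    have hl0 : l ≠ 0 := by omega
    have hpos : (0 : ℝ) < (l : ℝ)⁻¹ := by positivity
    simp only [hl0, if_false, abs_mul, abs_of_pos hpos]
    have := abs_sum_le_of_bef R f x 1 zero_le_one hb (fun r hr => by simpa using ih r hr)
    nlinarith
  | ofAvg l f hl h ih =>
    have hl0 : l ≠ 0 := by omega
    simp only [hl0, if_false] at ih
    have : (l : ℝ)⁻¹ ≤ 1 := inv_le_one_of_one_le₀ (by exact_mod_cast (by omega : 1 ≤ l))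
    simpa using ih.trans this
  | sum Q s β hs hβ hb hg ha ih =>
    simp only [if_true]
    refine abs_sum_le_of_bef Q β x 1 zero_le_one hb (fun q hq => ?_)
    have h2 := hs q hq
    have hl0 : s q ≠ 0 := by omega
    have := ih q hq
    simp only [hl0, if_false] at this
    exact this.trans (inv_le_one_of_one_le₀ (by exact_mod_cast (by omega : 1 ≤ s q)))

theorem Tr.abs_le_one {n : ℕ} {f : ℕ → ℝ} (h : Tr n 0 f) (x : ℕ) : |f x| ≤ 1 := by
  simpa using h.abs_le x

theorem Tr.abs_le_inv {n l : ℕ} {f : ℕ → ℝ} (h : Tr n l f) (hl : 2 ≤ l) (x : ℕ) :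
    |f x| ≤ (l : ℝ)⁻¹ := by
  have hl0 : l ≠ 0 := by omega
  simpa [hl0] using h.abs_le x

theorem Tr.inv {n l : ℕ} {β : ℕ → ℝ} (h : Tr n l β) (hl : 2 ≤ l) :
    ∃ (R : Finset ℕ) (f : ℕ → ℕ → ℝ), (∀ r ∈ R, Tr n 0 (f r)) ∧
      (∀ r ∈ R, ∀ r' ∈ R, r < r' → Bef (f r) (f r')) ∧ R.card ≤ l ∧
      β = fun x => (l : ℝ)⁻¹ * ∑ r ∈ R, f r x := by
  cases h with
  | base f i hi h0 h1 => omega
  | avg l R f hf hb hl hc => exact ⟨R, f, hf, hb, hc, rfl⟩
  | ofAvg l f hl h => omega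
  | sum Q s β hs hβ hb hg ha => omega

theorem Adm.mono {β : ℕ → ℕ → ℝ} : ∀ {k : ℕ} {Q Q' : Finset ℕ}, Adm β k Q → Q' ⊆ Q → Adm β k Q'
  | 0, _, _, h, hQ => (Finset.card_le_card hQ).trans h
  | _ + 1, _, _, ⟨d, g, h1, h2, h3⟩, hQ =>
    ⟨d, g, fun q hq => h1 q (hQ hq),
      fun i => (h2 i).mono (Finset.filter_subset_filter _ hQ), fun q hq => h3 q (hQ hq)⟩

theorem Adm.succ {β : ℕ → ℕ → ℝ} {k : ℕ} {Q : Finset ℕ} (h : Adm β k Q)
    (h0 : ∀ q ∈ Q, β q 0 = 0) : Adm β (k + 1) Q := by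
  refine ⟨1, fun _ => 0, fun _ _ => Nat.one_pos, fun i => h.mono (Finset.filter_subset _ _), ?_⟩
  intro q hq x hx
  rcases Nat.eq_zero_or_pos x with rfl | hx0
  · exact absurd (h0 q hq) hx
  · exact hx0

theorem Adm.le {β : ℕ → ℕ → ℝ} {k k' : ℕ} {Q : Finset ℕ} (h : Adm β k Q) (hk : k ≤ k')
    (h0 : ∀ q ∈ Q, β q 0 = 0) : Adm β k' Q := by
  induction hk with
  | refl => exact h
  | step _ ih => exact ih.succ h0

theorem Fam.sum_tr {n ν : ℕ} {Q : Finset ℕ} {s : ℕ → ℕ} {β : ℕ → ℕ → ℝ} (h : Fam n Q s β)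
    (ha : Adm β ν Q) (hν : ν ≤ n) : Tr n 0 (fun x => ∑ q ∈ Q, β q x) :=
  Tr.sum Q s β h.two h.tr h.bef h.grow (ha.le hν fun q hq => (h.tr q hq).zero)

/-- From the Schreier families to `Adm`. -/
theorem adm_of_schreier (β : ℕ → ℕ → ℝ) (μ : ℕ → ℕ) :
    ∀ (k : ℕ) (G : Finset ℕ), G ∈ schreier k → ∀ Q : Finset ℕ, (∀ q ∈ Q, μ q ∈ G) →
      (∀ q ∈ Q, ∀ q' ∈ Q, μ q = μ q' → q = q') → (∀ q ∈ Q, ∀ x, β q x ≠ 0 → μ q ≤ x) →
      Adm β k Q
  | 0, G, ⟨x, _, hG⟩, Q, h1, h2, _ => by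
    refine Finset.card_le_one.2 fun q hq q' hq' => h2 q hq q' hq' ?_
    have a := h1 q hq
    have b := h1 q' hq'
    rw [hG, Finset.mem_singleton] at a b
    rw [a, b]
  | k + 1, G, ⟨d, F, hF, hsucc, hd, hG⟩, Q, h1, h2, h3 => by
    classical
    have hne : ∀ (k : ℕ) (H : Finset ℕ), H ∈ schreier k → H.Nonempty := by
      intro k
      induction k with
      | zero => rintro H ⟨x, _, rfl⟩; simp
      | succ k ih =>
        rintro H ⟨d, F, hF, _, _, rfl⟩
        obtain ⟨x, hx⟩ := ih _ (hF 0)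
        exact ⟨x, Finset.mem_biUnion.2 ⟨0, Finset.mem_univ _, hx⟩⟩
    have hex : ∀ q ∈ Q, ∃ i : Fin (d + 1), μ q ∈ F i := by
      intro q hq
      have := h1 q hq
      rw [hG] at this
      obtain ⟨i, _, hi⟩ := Finset.mem_biUnion.1 this
      exact ⟨i, hi⟩
    choose! g hg using hex
    refine ⟨d + 1, fun q => (g q : ℕ), fun q _ => (g q).2, fun i => ?_, fun q hq x hx => ?_⟩
    · by_cases hi : i < d + 1
      · refine adm_of_schreier β μ k (F ⟨i, hi⟩) (hF _) _ (fun q hq => ?_)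
          (fun q hq q' hq' => h2 q (Finset.mem_filter.1 hq).1 q' (Finset.mem_filter.1 hq').1)
          (fun q hq => h3 q (Finset.mem_filter.1 hq).1)
        obtain ⟨hq1, hq2⟩ := Finset.mem_filter.1 hq
        have : g q = ⟨i, hi⟩ := Fin.ext hq2
        rw [← this]; exact hg q hq1
      · have : (Q.filter fun q => (g q : ℕ) = i) = ∅ := by
          refine Finset.filter_eq_empty_iff.2 fun q _ hqi => hi ?_
          rw [← hqi]; exact (g q).2
        rw [this]
        have h0 : Adm β 0 ∅ := by simp [Adm]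
        exact h0.le (Nat.zero_le _) (by simp)
    · refine le_trans ?_ (h3 q hq x hx)
      rcases eq_or_ne (g q) 0 with h0 | h0
      · exact hd _ (h0 ▸ hg q hq)
      · obtain ⟨y, hy⟩ := hne _ _ (hF 0)
        have := hsucc 0 (g q) (Fin.pos_iff_ne_zero.2 h0) y hy _ (hg q hq)
        exact (hd y hy).trans this.le

/-- Extension of a family indexed by `Fin (d + 1)` to `ℕ`. -/
def extF {α : Type} {d : ℕ} (f : Fin (d + 1) → α) (r : ℕ) : α :=
  if h : r < d + 1 then f ⟨r, h⟩ else f 0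

theorem extF_of_lt {α : Type} {d : ℕ} (f : Fin (d + 1) → α) {r : ℕ} (h : r < d + 1) :
    extF f r = f ⟨r, h⟩ := dif_pos h

theorem bef_of_before {f g : C00} (h : Before f g) : Bef f g := fun x y hx hy =>
  h x (Finsupp.mem_support_iff.2 hx) y (Finsupp.mem_support_iff.2 hy)

theorem sum_extF {d : ℕ} (f : Fin (d + 1) → C00) (x : ℕ) :
    (∑ q, f q) x = ∑ r ∈ Finset.range (d + 1), extF f r x := by
  rw [Finsupp.finsetSum_apply, Finset.sum_range]
  exact Finset.sum_congr rfl fun q _ => by rw [extF_of_lt f q.2]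

theorem tr_of_isAverage {n : ℕ} {V : Set C00} (hV : ∀ f ∈ V, Tr n 0 f ∧ f ≠ 0) {l : ℕ} {α : C00}
    (h : IsAverage V l α) : 2 ≤ l ∧ Tr n l α ∧ α ≠ 0 := by
  obtain ⟨d, f, hf, hb, hl, hd, rfl⟩ := h
  refine ⟨hl, ?_, ?_⟩
  · have := Tr.avg (n := n) l (Finset.range (d + 1)) (fun r => ((extF f r : C00) : ℕ → ℝ))
      (fun r hr => by rw [extF_of_lt f (Finset.mem_range.1 hr)]; exact (hV _ (hf _)).1)
      (fun r hr r' hr' hlt => by
        rw [extF_of_lt f (Finset.mem_range.1 hr), extF_of_lt f (Finset.mem_range.1 hr')]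
        exact bef_of_before (hb _ _ hlt)) hl (by simpa using hd)
    convert this using 1
    funext x
    rw [Finsupp.smul_apply, sum_extF, smul_eq_mul]
  · obtain ⟨x, hx⟩ := Finsupp.ne_iff.1 (hV _ (hf 0)).2
    intro h0
    have h1 : ((l : ℝ)⁻¹ • ∑ q, f q) x = 0 := by rw [h0]; rfl
    rw [Finsupp.smul_apply, Finsupp.finsetSum_apply, Finset.sum_eq_single 0] at h1
    · have : (l : ℝ)⁻¹ ≠ 0 := by positivity
      simp only [smul_eq_mul, mul_eq_zero, this, false_or] at h1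
      exact hx h1
    · intro q _ hq
      by_contra hne
      exact lt_irrefl _ (bef_of_before (hb 0 q (Fin.pos_iff_ne_zero.2 hq)) x x hx hne)
    · simp

theorem minSupp_mem {f : C00} (hf : f ≠ 0) : f (minSupp f) ≠ 0 := by
  have : (f.support : Set ℕ).Nonempty := by
    simpa [Finsupp.support_nonempty_iff] using hf
  exact Finsupp.mem_support_iff.1 (Nat.sInf_mem this)

theorem minSupp_le {f : C00} {x : ℕ} (hx : f x ≠ 0) : minSupp f ≤ x :=
  Nat.sInf_le (Finsupp.mem_support_iff.2 hx)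

theorem le_maxSupp {f : C00} {x : ℕ} (hx : f x ≠ 0) : x ≤ maxSupp f :=
  Finset.le_sup (f := id) (Finsupp.mem_support_iff.2 hx)

theorem tr_of_isSchreierSum {n : ℕ} {A : Set (ℕ × C00)}
    (hA : ∀ p ∈ A, 2 ≤ p.1 ∧ Tr n p.1 p.2 ∧ p.2 ≠ 0) {g : C00}
    (h : IsSchreierSum n A g) : Tr n 0 g ∧ g ≠ 0 := by
  obtain ⟨d, s, α, hα, hb, hS, hs, hg, rfl⟩ := h
  have hne : ∀ q, α q ≠ 0 := fun q => (hA _ (hα q)).2.2
  constructor
  · have := Tr.sum (n := n) (Finset.range (d + 1)) (extF s) (fun r => ((extF α r : C00) : ℕ → ℝ))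
      (fun r hr => by rw [extF_of_lt s (Finset.mem_range.1 hr)]; exact (hA _ (hα _)).1)
      (fun r hr => by
        rw [extF_of_lt s (Finset.mem_range.1 hr), extF_of_lt α (Finset.mem_range.1 hr)]
        exact (hA _ (hα _)).2.1)
      (fun r hr r' hr' hlt => by
        rw [extF_of_lt α (Finset.mem_range.1 hr), extF_of_lt α (Finset.mem_range.1 hr')]
        exact bef_of_before (hb _ _ hlt))
      (fun r hr r' hr' hlt x hx => by
        have hr1 := Finset.mem_range.1 hr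
        have hr2 := Finset.mem_range.1 hr'
        rw [extF_of_lt α hr1] at hx
        rw [extF_of_lt s hr2]
        have h1 := hg ⟨r, by omega⟩
        have h2 : s (Fin.succ ⟨r, by omega⟩) ≤ s ⟨r', hr2⟩ :=
          hs.monotone (by simp only [Fin.le_def, Fin.val_succ]; omega)
        exact lt_of_le_of_lt (le_maxSupp hx) (lt_of_lt_of_le h1 h2))
      (adm_of_schreier _ (fun r => minSupp (extF α r)) n _ hS _
        (fun r hr => by
          rw [extF_of_lt α (Finset.mem_range.1 hr)]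
          exact Finset.mem_image.2 ⟨_, Finset.mem_univ _, rfl⟩)
        (fun r hr r' hr' he => by
          have hr1 := Finset.mem_range.1 hr
          have hr2 := Finset.mem_range.1 hr'
          simp only [extF_of_lt α hr1, extF_of_lt α hr2] at he
          by_contra hne'
          rcases lt_or_gt_of_ne hne' with hlt | hlt
          · exact absurd he (bef_of_before (hb ⟨r, hr1⟩ ⟨r', hr2⟩ hlt) _ _
              (minSupp_mem (hne _)) (minSupp_mem (hne _))).ne
          · exact absurd he (bef_of_before (hb ⟨r', hr2⟩ ⟨r, hr1⟩ hlt) _ _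
              (minSupp_mem (hne _)) (minSupp_mem (hne _))).ne')
        (fun r _ x hx => minSupp_le hx))
    convert this using 1
    funext x
    rw [sum_extF]
  · obtain ⟨x, hx⟩ := Finsupp.ne_iff.1 (hne 0)
    intro h0
    have h1 : (∑ q, α q) x = 0 := by rw [h0]; rfl
    rw [Finsupp.finsetSum_apply, Finset.sum_eq_single 0] at h1
    · exact hx h1
    · intro q _ hq
      by_contra hne
      exact lt_irrefl _ (bef_of_before (hb 0 q (Fin.pos_iff_ne_zero.2 hq)) x x hx hne)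
    · simp

theorem tr_of_stage (n : ℕ) : ∀ m, (∀ f ∈ (stage n m).1, Tr n 0 f ∧ f ≠ 0) ∧
    (∀ p ∈ (stage n m).2, 2 ≤ p.1 ∧ Tr n p.1 p.2 ∧ p.2 ≠ 0)
  | 0 => by
    refine ⟨?_, by simp [stage]⟩
    rintro f ⟨i, hi, rfl | rfl⟩
    · exact ⟨Tr.base _ i hi (fun x hx => by simp [unitVec, hx.symm])
        (by simp [unitVec]), by simp [unitVec]⟩
    · exact ⟨Tr.base _ i hi (fun x hx => by simp [unitVec, hx.symm])
        (by simp [unitVec]), by simp [unitVec]⟩
  | m + 1 => by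
    obtain ⟨h1, h2⟩ := tr_of_stage n m
    constructor
    · rintro f ((hf | ⟨l, hl⟩) | hf)
      · exact h1 f hf
      · obtain ⟨a, b, c⟩ := tr_of_isAverage h1 hl
        exact ⟨Tr.ofAvg l _ a b, c⟩
      · exact tr_of_isSchreierSum h2 hf
    · rintro p (hp | hp)
      · exact h2 p hp
      · exact tr_of_isAverage h1 hp

theorem tr_of_mem {n : ℕ} {f : C00} (hf : f ∈ normingSet n) : Tr n 0 f := by
  obtain ⟨m, hm⟩ := Set.mem_iUnion.1 hf
  exact ((tr_of_stage n m).1 f hm).1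

end Pool.Agent.Lib.MP_7cd5bf_an
end

-- part Pool.Agent.Lib.MP_7cd5bf_an.Upper
section

set_option autoImplicit false

namespace Pool.Agent.Lib.MP_7cd5bf_an

open Finset

/-- The basic lacunary sequence. -/
def bb : ℕ → ℕ
  | 0 => 2
  | m + 1 => ((bb m) ^ 3 + 2) ^ 3

def LL (m : ℕ) : ℕ := (bb m) ^ 3
def PP (m : ℕ) : ℕ := (bb m) ^ 3 + 2
def jj (m : ℕ) : ℕ := bb (m + 1)
def ii (m : ℕ) : ℕ := (bb (m + 1)) ^ 3 + 1

theorem le_cube (x : ℕ) : x ≤ x ^ 3 := Nat.le_self_pow (by norm_num) x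

theorem two_le_bb : ∀ m, 2 ≤ bb m
  | 0 => le_rfl
  | m + 1 => by
    have := le_cube ((bb m) ^ 3 + 2)
    have := two_le_bb m
    simp only [bb]; omega

theorem bb_le_LL (m : ℕ) : bb m ≤ LL m := le_cube _

theorem LL_lt_PP (m : ℕ) : LL m + 1 < PP m := by simp [LL, PP]

theorem jj_eq (m : ℕ) : jj m = (PP m) ^ 3 := rfl

theorem PP_le_jj (m : ℕ) : PP m ≤ jj m := by
  rw [jj_eq]; exact le_cube _

theorem bb_lt_succ (m : ℕ) : bb m < bb (m + 1) := by
  have h1 := bb_le_LL m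
  have h2 := LL_lt_PP m
  have h3 := PP_le_jj m
  simp only [jj] at h3
  omega

theorem bb_strictMono : StrictMono bb := strictMono_nat_of_lt_succ bb_lt_succ

theorem jj_strictMono : StrictMono jj := fun _ _ h => bb_strictMono (Nat.succ_lt_succ h)

theorem LL_strictMono : StrictMono LL := fun _ _ h =>
  Nat.pow_lt_pow_left (bb_strictMono h) (by norm_num)

theorem PP_strictMono : StrictMono PP := fun a b h => by
  have := LL_strictMono h
  simp only [LL, PP] at *; omega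

theorem ii_eq (m : ℕ) : ii m = LL (m + 1) + 1 := rfl

theorem ii_strictMono : StrictMono ii := fun a b h => by
  have : LL (a + 1) < LL (b + 1) := LL_strictMono (Nat.succ_lt_succ h)
  simp only [ii_eq]; omega

theorem jj_lt_ii (m : ℕ) : jj m < ii m := by
  have := bb_le_LL (m + 1)
  simp only [ii_eq, jj]; omega

theorem ii_lt_PP (m : ℕ) : ii m < PP (m + 1) := by
  have := LL_lt_PP (m + 1)
  simp only [ii_eq]; omega

theorem ii_lt_jj (m : ℕ) : ii m < jj (m + 1) := (ii_lt_PP m).trans_le (PP_le_jj _)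

theorem jj_le_bb {r m : ℕ} (h : r < m) : jj r ≤ bb m := bb_strictMono.monotone h

theorem le_bb (m : ℕ) : m ≤ bb m := bb_strictMono.le_apply

/-- The action of a functional on `∑ a_r e_(φ r)`. -/
noncomputable def pr (φ : ℕ → ℕ) (f : ℕ → ℝ) (a : ℕ →₀ ℝ) : ℝ :=
  Finsupp.linearCombination ℝ (fun r => f (φ r)) a

theorem pr_add (φ : ℕ → ℕ) (f : ℕ → ℝ) (a b : ℕ →₀ ℝ) : pr φ f (a + b) = pr φ f a + pr φ f b :=
  map_add _ _ _

theorem pr_smul (φ : ℕ → ℕ) (f : ℕ → ℝ) (c : ℝ) (a : ℕ →₀ ℝ) : pr φ f (c • a) = c * pr φ f a :=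
  map_smul _ _ _

theorem pr_sum (φ : ℕ → ℕ) (f : ℕ → ℝ) (S : Finset ℕ) (A : ℕ → ℕ →₀ ℝ) :
    pr φ f (∑ b ∈ S, A b) = ∑ b ∈ S, pr φ f (A b) :=
  map_sum _ _ _

theorem pr_single (φ : ℕ → ℕ) (f : ℕ → ℝ) (m : ℕ) : pr φ f (Finsupp.single m 1) = f (φ m) := by
  simp [pr]

theorem pr_def (φ : ℕ → ℕ) (f : ℕ → ℝ) (a : ℕ →₀ ℝ) :
    pr φ f a = ∑ r ∈ a.support, a r * f (φ r) := by
  simp [pr, Finsupp.linearCombination_apply, Finsupp.sum]

theorem pr_sum_left {ι : Type} (φ : ℕ → ℕ) (S : Finset ι) (f : ι → ℕ → ℝ) (a : ℕ →₀ ℝ) :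
    pr φ (fun x => ∑ q ∈ S, f q x) a = ∑ q ∈ S, pr φ (f q) a := by
  simp only [pr_def, Finset.mul_sum]
  exact Finset.sum_comm

theorem pr_mul_left (φ : ℕ → ℕ) (c : ℝ) (f : ℕ → ℝ) (a : ℕ →₀ ℝ) :
    pr φ (fun x => c * f x) a = c * pr φ f a := by
  simp only [pr_def, Finset.mul_sum]
  exact Finset.sum_congr rfl fun r _ => by ring

theorem pr_eq_zero {φ : ℕ → ℕ} {f : ℕ → ℝ} {a : ℕ →₀ ℝ} (h : ∀ r, a r ≠ 0 → f (φ r) = 0) :
    pr φ f a = 0 := by
  rw [pr_def]
  exact Finset.sum_eq_zero fun r hr => by rw [h r (Finsupp.mem_support_iff.1 hr), mul_zero]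

theorem pr_nonneg {φ : ℕ → ℕ} {f : ℕ → ℝ} {a : ℕ →₀ ℝ} (hf : ∀ x, 0 ≤ f x) (ha : ∀ r, 0 ≤ a r) :
    0 ≤ pr φ f a := by
  rw [pr_def]
  exact Finset.sum_nonneg fun r _ => mul_nonneg (ha r) (hf _)

theorem exists_of_pr_ne_zero {φ : ℕ → ℕ} {f : ℕ → ℝ} {a : ℕ →₀ ℝ} (h : pr φ f a ≠ 0) :
    ∃ r, a r ≠ 0 ∧ f (φ r) ≠ 0 := by
  by_contra hn
  push Not at hn
  exact h (pr_eq_zero hn)

def Supp (a : ℕ →₀ ℝ) (m E : ℕ) : Prop := ∀ r, a r ≠ 0 → m ≤ r ∧ r < E

def NB (n : ℕ) (a : ℕ →₀ ℝ) (B : ℝ) : Prop := ∀ f, Tr n 0 f → pr jj f a ≤ B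

def TT (n ν : ℕ) (a : ℕ →₀ ℝ) (D δ : ℝ) : Prop :=
  ∀ (Q : Finset ℕ) (s : ℕ → ℕ) (β : ℕ → ℕ → ℝ) (σ : ℝ), Fam n Q s β → Adm β ν Q → 0 < σ →
    (∀ q ∈ Q, σ ≤ s q) → ∑ q ∈ Q, pr jj (β q) a ≤ D / σ + δ

theorem NB.mono {n : ℕ} {a : ℕ →₀ ℝ} {B B' : ℝ} (h : NB n a B) (hB : B ≤ B') : NB n a B' :=
  fun f hf => (h f hf).trans hB

theorem TT.mono {n ν : ℕ} {a : ℕ →₀ ℝ} {D δ D' δ' : ℝ} (h : TT n ν a D δ) (hD : D ≤ D')
    (hδ : δ ≤ δ') : TT n ν a D' δ' := fun Q s β σ hF hA hσ hs =>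
  (h Q s β σ hF hA hσ hs).trans (add_le_add (div_le_div_of_nonneg_right hD hσ.le) hδ)

theorem TT.add {n ν : ℕ} {a a' : ℕ →₀ ℝ} {D δ D' δ' : ℝ} (h : TT n ν a D δ)
    (h' : TT n ν a' D' δ') : TT n ν (a + a') (D + D') (δ + δ') := fun Q s β σ hF hA hσ hs => by
  have h1 := h Q s β σ hF hA hσ hs
  have h2 := h' Q s β σ hF hA hσ hs
  simp only [pr_add, Finset.sum_add_distrib, add_div]
  linarith

theorem nb_single (n m : ℕ) : NB n (Finsupp.single m 1) 1 := fun f hf => by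
  rw [pr_single]; exact (le_abs_self _).trans (hf.abs_le_one _)

theorem tt_single (n ν m : ℕ) : TT n ν (Finsupp.single m 1) 1 0 := fun Q s β σ hF _ hσ hs => by
  simp only [pr_single, add_zero]
  refine (le_abs_self _).trans (abs_sum_le_of_bef Q β _ _ (by positivity) hF.bef fun q hq => ?_)
  refine ((hF.tr q hq).abs_le_inv (hF.two q hq) _).trans ?_
  rw [one_div]
  exact inv_anti₀ hσ (hs q hq)

theorem bb_pos_real (m : ℕ) : (0 : ℝ) < bb m := by
  have := two_le_bb m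
  exact_mod_cast (by omega : 0 < bb m)

theorem one_le_bb_real (m : ℕ) : (1 : ℝ) ≤ bb m := by
  have := two_le_bb m
  exact_mod_cast (by omega : 1 ≤ bb m)

theorem LL_real (m : ℕ) : (LL m : ℝ) = (bb m : ℝ) ^ 3 := by simp [LL]

theorem tail_lemma {n ν m : ℕ} {a : ℕ →₀ ℝ} {D : ℝ} (hT : TT n ν a D (D / LL m)) (hD : 0 ≤ D)
    (hs : ∀ r, a r ≠ 0 → m ≤ r) {Q : Finset ℕ} {s : ℕ → ℕ} {β : ℕ → ℕ → ℝ} (hF : Fam n Q s β)
    {d : ℕ} {g : ℕ → ℕ} (hg : ∀ q ∈ Q, g q < d) (hA : ∀ i, Adm β ν (Q.filter fun q => g q = i))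
    (hd : d ≤ bb m) {σ : ℝ} (hσ : 0 < σ) (hσs : ∀ q ∈ Q, σ ≤ s q) :
    ∑ q ∈ Q, pr jj (β q) a ≤ D / σ + 3 * D / (bb m : ℝ) ^ 2 := by
  classical
  have hb := bb_pos_real m
  have hb1 := one_le_bb_real m
  set Q' := Q.filter fun q => pr jj (β q) a ≠ 0 with hQ'
  have hsub : Q' ⊆ Q := Finset.filter_subset _ _
  rw [← Finset.sum_filter_ne_zero, ← hQ']
  rcases Q'.eq_empty_or_nonempty with h0 | hne
  · rw [h0, Finset.sum_empty]; positivity
  set q0 := Q'.min' hne with hq0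
  have hq0m : q0 ∈ Q' := Q'.min'_mem hne
  rw [← Finset.add_sum_erase _ _ hq0m]
  have h1 : pr jj (β q0) a ≤ D / σ + D / LL m := by
    have hss : ({q0} : Finset ℕ) ⊆ Q := by simpa using hsub hq0m
    have := hT {q0} s β σ (hF.mono hss)
      ((hA (g q0)).mono (by simpa using hsub hq0m)) hσ (fun q hq => hσs q (hss hq))
    simpa using this
  obtain ⟨r, hr, hβr⟩ := exists_of_pr_ne_zero (Finset.mem_filter.1 hq0m).2
  have hjm : (0 : ℝ) < jj m := by
    have := two_le_bb (m + 1)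
    exact_mod_cast (by simp only [jj]; omega : 0 < jj m)
  have h2 : ∀ i, ∑ q ∈ (Q'.erase q0).filter (fun q => g q = i), pr jj (β q) a
      ≤ D / jj m + D / LL m := by
    intro i
    have hss : (Q'.erase q0).filter (fun q => g q = i) ⊆ Q.filter (fun q => g q = i) :=
      Finset.filter_subset_filter _ ((Finset.erase_subset _ _).trans hsub)
    refine hT _ s β _ (hF.mono (hss.trans (Finset.filter_subset _ _))) ((hA i).mono hss) hjm ?_
    intro q hq
    obtain ⟨hq1, hq2⟩ := Finset.mem_erase.1 (Finset.mem_filter.1 hq).1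
    have hlt : q0 < q := lt_of_le_of_ne (Q'.min'_le q hq2) (Ne.symm hq1)
    have := hF.grow q0 (hsub hq0m) q (hsub hq2) hlt _ hβr
    have h3 : jj m ≤ jj r := jj_strictMono.monotone (hs r hr)
    exact_mod_cast (by omega : jj m ≤ s q)
  have h3 : ∑ q ∈ Q'.erase q0, pr jj (β q) a ≤ d * (D / jj m + D / LL m) := by
    rw [← Finset.sum_fiberwise_of_maps_to (t := Finset.range d) (g := g)
      (fun q hq => Finset.mem_range.2 (hg q (hsub (Finset.mem_of_mem_erase hq))))]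
    refine (Finset.sum_le_sum fun i _ => h2 i).trans ?_
    rw [Finset.sum_const, Finset.card_range, nsmul_eq_mul]
  have hLj : (LL m : ℝ) ≤ jj m := by
    have := LL_lt_PP m
    have := PP_le_jj m
    exact_mod_cast (by omega : LL m ≤ jj m)
  have hLpos : (0 : ℝ) < LL m := by rw [LL_real]; positivity
  have h4 : D / jj m ≤ D / LL m := div_le_div_of_nonneg_left hD hLpos hLj
  have hdb : (d : ℝ) ≤ bb m := by exact_mod_cast hd
  have h5 : (bb m : ℝ) * (D / LL m) = D / (bb m : ℝ) ^ 2 := by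
    rw [LL_real]; field_simp
  have h6 : 0 ≤ D / LL m := by positivity
  have h7 : D / LL m ≤ (bb m : ℝ) * (D / LL m) := le_mul_of_one_le_left h6 hb1
  have h8 : (d : ℝ) * (D / jj m + D / LL m) ≤ (bb m : ℝ) * (2 * (D / LL m)) :=
    mul_le_mul hdb (by linarith) (by positivity) hb.le
  have h9 : 3 * D / (bb m : ℝ) ^ 2 = 3 * (D / (bb m : ℝ) ^ 2) := by ring
  rw [h9, ← h5]
  nlinarith

theorem two_block {n m1 m2 : ℕ} {a1 a2 : ℕ →₀ ℝ} {B D : ℝ} (h1 : Supp a1 m1 m2)
    (h2 : ∀ r, a2 r ≠ 0 → m2 ≤ r) (hm : m1 < m2) (hB : 0 ≤ B) (hD : 0 ≤ D)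
    (hN1 : NB (n + 1) a1 B) (hN2 : NB (n + 1) a2 B) (hT : TT (n + 1) n a2 D (D / LL m2)) :
    NB (n + 1) (a1 + a2) (B + 8 * D / jj m1) := by
  classical
  have hjm : (0 : ℝ) < jj m1 := by
    have := two_le_bb (m1 + 1)
    exact_mod_cast (by simp only [jj]; omega : 0 < jj m1)
  set η : ℝ := 4 * D / jj m1 with hη
  have hη0 : 0 ≤ η := by positivity
  have hsimple : ∀ f, Tr (n + 1) 0 f → (pr jj f a1 = 0 ∨ pr jj f a2 = 0) →
      pr jj f (a1 + a2) ≤ B := by
    intro f hf h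
    rw [pr_add]
    rcases h with h | h
    · rw [h, zero_add]; exact hN2 f hf
    · rw [h, add_zero]; exact hN1 f hf
  have hcross : ∀ f g : ℕ → ℝ, Bef f g → pr jj f a2 ≠ 0 → pr jj g a1 = 0 := by
    intro f g hfg hf
    by_contra hg
    obtain ⟨r, hr, hfr⟩ := exists_of_pr_ne_zero hf
    obtain ⟨r', hr', hgr⟩ := exists_of_pr_ne_zero hg
    have := jj_strictMono.lt_iff_lt.1 (hfg _ _ hfr hgr)
    have := h2 r hr
    have := (h1 r' hr').2
    omega
  have key : ∀ l f, Tr (n + 1) l f → pr jj f (a1 + a2) ≤ B + (if l = 0 then 2 * η else η) := by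
    intro l f hf
    induction hf with
    | base f i hi h0 h1' =>
      have : pr jj f (a1 + a2) ≤ B := by
        refine hsimple f (Tr.base f i hi h0 h1') ?_
        by_contra hn
        push Not at hn
        obtain ⟨r, hr, hfr⟩ := exists_of_pr_ne_zero hn.1
        obtain ⟨r', hr', hfr'⟩ := exists_of_pr_ne_zero hn.2
        have e1 : jj r = i := by by_contra hne; exact hfr (h0 _ hne)
        have e2 : jj r' = i := by by_contra hne; exact hfr' (h0 _ hne)
        have := jj_strictMono.injective (e1.trans e2.symm)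
        have := h2 r' hr'
        have := (h1 r hr).2
        omega
      simp only [if_true]; linarith
    | avg l R f hf hb hl hc ih =>
      have hl0 : l ≠ 0 := by omega
      simp only [hl0, if_false, if_true] at ih ⊢
      rw [pr_mul_left, pr_sum_left]
      have hsum : ∑ r ∈ R, pr jj (f r) (a1 + a2) ≤ R.card * B + 2 * η := by
        by_cases hx : ∃ r ∈ R, pr jj (f r) a1 ≠ 0 ∧ pr jj (f r) a2 ≠ 0
        · obtain ⟨r0, hr0, hx1, hx2⟩ := hx
          rw [← Finset.add_sum_erase _ _ hr0]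
          have : ∑ r ∈ R.erase r0, pr jj (f r) (a1 + a2) ≤ (R.erase r0).card • B := by
            refine Finset.sum_le_card_nsmul _ _ _ fun r hr => ?_
            obtain ⟨hne, hrR⟩ := Finset.mem_erase.1 hr
            refine hsimple _ (hf r hrR) ?_
            rcases lt_or_gt_of_ne hne with hlt | hlt
            · right
              by_contra hn
              exact hx1 (hcross _ _ (hb r hrR r0 hr0 hlt) hn)
            · left
              exact hcross _ _ (hb r0 hr0 r hrR hlt) hx2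
          have hcard : ((R.erase r0).card : ℝ) + 1 = R.card := by
            exact_mod_cast Finset.card_erase_add_one hr0
          have := ih r0 hr0
          rw [nsmul_eq_mul] at *
          rw [← hcard]; linarith
        · push Not at hx
          have : ∑ r ∈ R, pr jj (f r) (a1 + a2) ≤ R.card • B := by
            refine Finset.sum_le_card_nsmul _ _ _ fun r hr => hsimple _ (hf r hr) ?_
            by_cases h : pr jj (f r) a1 = 0
            · exact Or.inl h
            · exact Or.inr (hx r hr h)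
          rw [nsmul_eq_mul] at this
          linarith
      have hl2 : (2 : ℝ) ≤ l := by exact_mod_cast hl
      have hcl : (R.card : ℝ) ≤ l := by exact_mod_cast hc
      rw [inv_mul_le_iff₀ (by linarith)]
      nlinarith
    | ofAvg l f hl h ih =>
      have hl0 : l ≠ 0 := by omega
      simp only [hl0, if_false, if_true] at ih ⊢
      linarith
    | sum Q s β hs hβ hb hg ha ih =>
      simp only [if_true]
      have hF : Fam (n + 1) Q s β := ⟨hs, hβ, hb, hg⟩
      have htr := Tr.sum Q s β hs hβ hb hg ha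
      set Q1 := Q.filter fun q => pr jj (β q) a1 ≠ 0 with hQ1
      rcases Q1.eq_empty_or_nonempty with h0 | hne
      · have : pr jj (fun x => ∑ q ∈ Q, β q x) a1 = 0 := by
          rw [pr_sum_left, ← Finset.sum_filter_ne_zero, ← hQ1, h0, Finset.sum_empty]
        have := hsimple _ htr (Or.inl this)
        linarith
      set q0 := Q1.min' hne with hq0
      have hq0m : q0 ∈ Q1 := Q1.min'_mem hne
      obtain ⟨hq0Q, hq01⟩ := Finset.mem_filter.1 hq0m
      obtain ⟨r, hr, hβr⟩ := exists_of_pr_ne_zero hq01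
      obtain ⟨d, g, hg1, hg2, hg3⟩ := ha
      have hlow2 : ∀ q ∈ Q, q < q0 → pr jj (β q) a2 = 0 := by
        intro q hq hlt
        by_contra hn
        exact hq01 (hcross _ _ (hb q hq q0 hq0Q hlt) hn)
      have hlow1 : ∀ q ∈ Q, q < q0 → pr jj (β q) a1 = 0 := by
        intro q hq hlt
        by_contra hn
        exact absurd (Q1.min'_le q (Finset.mem_filter.2 ⟨hq, hn⟩)) (by omega)
      set Q2 := Q.filter fun q => q0 < q with hQ2
      have hsub : Q2 ⊆ Q := Finset.filter_subset _ _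
      have htail : ∑ q ∈ Q2, pr jj (β q) a2 ≤ η := by
        have := tail_lemma hT hD h2 (hF.mono hsub) (d := d) (g := g)
          (fun q hq => hg1 q (hsub hq))
          (fun i => (hg2 i).mono (Finset.filter_subset_filter _ hsub))
          ((hg3 q0 hq0Q _ hβr).trans (jj_le_bb (h1 r hr).2)) hjm (fun q hq => by
            have := hg q0 hq0Q q (hsub hq) (Finset.mem_filter.1 hq).2 _ hβr
            have h3 : jj m1 ≤ jj r := jj_strictMono.monotone (h1 r hr).1
            exact_mod_cast (by omega : jj m1 ≤ s q))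
        refine this.trans ?_
        have hjb : (jj m1 : ℝ) ≤ bb m2 := by exact_mod_cast jj_le_bb hm
        have hb1 := one_le_bb_real m2
        have : 3 * D / (bb m2 : ℝ) ^ 2 ≤ 3 * D / jj m1 :=
          div_le_div_of_nonneg_left (by positivity) hjm (by nlinarith)
        have e : η = D / jj m1 + 3 * D / jj m1 := by rw [hη]; ring
        linarith
      have hsplit : ∀ F : ℕ → ℝ, (∀ q ∈ Q, q < q0 → F q = 0) →
          ∑ q ∈ Q, F q = F q0 + ∑ q ∈ Q2, F q := by
        intro F hF0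
        rw [← Finset.add_sum_erase _ _ hq0Q]
        congr 1
        symm
        refine Finset.sum_subset (fun q hq => ?_) (fun q hq hq' => ?_)
        · obtain ⟨ha, hb⟩ := Finset.mem_filter.1 hq
          exact Finset.mem_erase.2 ⟨hb.ne', ha⟩
        · obtain ⟨ha, hb⟩ := Finset.mem_erase.1 hq
          refine hF0 q hb (lt_of_le_of_ne ?_ ha)
          by_contra hlt
          exact hq' (Finset.mem_filter.2 ⟨hb, by omega⟩)
      by_cases hq02 : pr jj (β q0) a2 = 0
      · have e1 := hN1 _ htr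
        have e2 := hsplit (fun q => pr jj (β q) a2) hlow2
        rw [pr_add, pr_sum_left jj Q β a2, e2, hq02]
        linarith
      · have e1 := hsplit (fun q => pr jj (β q) a1) hlow1
        have e2 := hsplit (fun q => pr jj (β q) a2) hlow2
        have e3 : ∑ q ∈ Q2, pr jj (β q) a1 = 0 := Finset.sum_eq_zero fun q hq =>
          hcross _ _ (hb q0 hq0Q q (hsub hq) (Finset.mem_filter.1 hq).2) hq02
        have e4 := ih q0 hq0Q
        have hl0 : s q0 ≠ 0 := by have := hs q0 hq0Q; omega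
        simp only [hl0, if_false, pr_add] at e4
        rw [pr_add, pr_sum_left, pr_sum_left, e1, e2, e3]
        linarith
  intro f hf
  have := key 0 f hf
  simp only [if_true] at this
  have e : 8 * D / jj m1 = 2 * η := by rw [hη]; ring
  rw [e]; exact this

end Pool.Agent.Lib.MP_7cd5bf_an
end

-- part Pool.Agent.Lib.MP_7cd5bf_an.Level
section

set_option autoImplicit false

namespace Pool.Agent.Lib.MP_7cd5bf_an

open Finset

section blocks

variable {n : ℕ} {ms : ℕ → ℕ} {A : ℕ → ℕ →₀ ℝ}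

theorem supp_sum (hms : StrictMono ms) (hA : ∀ b, Supp (A b) (ms b) (ms (b + 1))) (L : ℕ) :
    Supp (∑ b ∈ range L, A b) (ms 0) (ms L) := by
  intro r hr
  rw [Finsupp.finsetSum_apply] at hr
  obtain ⟨b, hb, hbr⟩ := Finset.exists_ne_zero_of_sum_ne_zero hr
  have h1 := hA b r hbr
  have h2 : ms 0 ≤ ms b := hms.monotone (Nat.zero_le _)
  have h3 : ms (b + 1) ≤ ms L := hms.monotone (Finset.mem_range.1 hb)
  omega

theorem Supp.smul {a : ℕ →₀ ℝ} {m E : ℕ} (h : Supp a m E) (c : ℝ) : Supp (c • a) m E := by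
  intro r hr
  refine h r fun h0 => hr ?_
  simp [h0]

theorem c0_sum {B D : ℝ} (hms : StrictMono ms) (hA : ∀ b, Supp (A b) (ms b) (ms (b + 1)))
    (hB : 0 ≤ B) (hD : 0 ≤ D) (hN : ∀ b, NB (n + 1) (A b) B)
    (hT : ∀ b, TT (n + 1) n (A b) D (D / LL (ms b))) (P : ℕ) :
    NB (n + 1) (∑ b ∈ range P, A b) (B + P * (8 * D / jj (ms 0))) := by
  have hη : 0 ≤ 8 * D / jj (ms 0) := by positivity
  induction P with
  | zero =>
    intro f _
    simp [pr, hB]
  | succ P ih =>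
    rcases Nat.eq_zero_or_pos P with rfl | hP
    · simp only [zero_add, Finset.range_one, Finset.sum_singleton]
      exact (hN 0).mono (by simp [hη])
    · rw [Finset.sum_range_succ]
      have hPη : 0 ≤ (P : ℝ) * (8 * D / jj (ms 0)) := by positivity
      have := two_block (supp_sum hms hA P) (fun r hr => (hA P r hr).1) (hms hP)
        (B := B + P * (8 * D / jj (ms 0))) (by positivity) hD ih
        ((hN P).mono (by linarith)) (hT P)
      refine this.mono (le_of_eq ?_)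
      push_cast; ring

theorem nb_avg {B : ℝ} {L : ℕ} (hL : 0 < L) (hN : ∀ b, NB n (A b) B) :
    NB n ((L : ℝ)⁻¹ • ∑ b ∈ range L, A b) B := by
  intro f hf
  have hL' : (0 : ℝ) < L := by exact_mod_cast hL
  rw [pr_smul, pr_sum, inv_mul_le_iff₀ hL']
  have := Finset.sum_le_card_nsmul (range L) (fun b => pr jj f (A b)) B fun b _ => hN b f hf
  simpa using this

theorem card_meet (hms : StrictMono ms) (hA : ∀ b, Supp (A b) (ms b) (ms (b + 1)))
    (R : Finset ℕ) (f : ℕ → ℕ → ℝ) (hb : ∀ r ∈ R, ∀ r' ∈ R, r < r' → Bef (f r) (f r')) (L : ℕ) :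
    ((R ×ˢ range L).filter fun p => pr jj (f p.1) (A p.2) ≠ 0).card ≤ L + R.card := by
  classical
  set S := (R ×ˢ range L).filter fun p => pr jj (f p.1) (A p.2) ≠ 0 with hS
  let c : ℕ × ℕ → Prop := fun p => ∃ r' ∈ R, r' < p.1 ∧ pr jj (f r') (A p.2) ≠ 0
  rw [← Finset.card_filter_add_card_filter_not (s := S) c, add_comm]
  refine add_le_add ?_ ?_
  · rw [← Finset.card_range L]
    refine Finset.card_le_card_of_injOn Prod.snd (fun p hp => ?_) (fun p hp p' hp' he => ?_)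
    · have := (Finset.mem_filter.1 (Finset.mem_filter.1 hp).1).1
      exact (Finset.mem_product.1 this).2
    · obtain ⟨hp1, hp2⟩ := Finset.mem_filter.1 hp
      obtain ⟨hp1', hp2'⟩ := Finset.mem_filter.1 hp'
      obtain ⟨hp3, hp4⟩ := Finset.mem_filter.1 hp1
      obtain ⟨hp3', hp4'⟩ := Finset.mem_filter.1 hp1'
      refine Prod.ext ?_ he
      by_contra hne
      rcases lt_or_gt_of_ne hne with hlt | hlt
      · exact hp2' ⟨p.1, (Finset.mem_product.1 hp3).1, hlt, he ▸ hp4⟩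
      · exact hp2 ⟨p'.1, (Finset.mem_product.1 hp3').1, hlt, he ▸ hp4'⟩
  · refine Finset.card_le_card_of_injOn Prod.fst (fun p hp => ?_) (fun p hp p' hp' he => ?_)
    · have := (Finset.mem_filter.1 (Finset.mem_filter.1 hp).1).1
      exact (Finset.mem_product.1 this).1
    · have key : ∀ p ∈ S.filter c, ∀ p' ∈ S.filter c, p.1 = p'.1 → ¬ p.2 < p'.2 := by
        intro p hp p' hp' he hlt
        obtain ⟨hp1, _⟩ := Finset.mem_filter.1 hp
        obtain ⟨_, r', hr', hr'lt, hr'ne⟩ := Finset.mem_filter.1 hp'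
        obtain ⟨hp3, hp4⟩ := Finset.mem_filter.1 hp1
        obtain ⟨x, hx, hfx⟩ := exists_of_pr_ne_zero hp4
        obtain ⟨y, hy, hfy⟩ := exists_of_pr_ne_zero hr'ne
        have h1 := jj_strictMono.lt_iff_lt.1
          (hb r' hr' p.1 (Finset.mem_product.1 hp3).1 (he ▸ hr'lt) _ _ hfy hfx)
        have h2 := (hA _ x hx).2
        have h3 := (hA _ y hy).1
        have h4 : ms (p.2 + 1) ≤ ms p'.2 := hms.monotone hlt
        omega
      refine Prod.ext he ?_
      rcases lt_trichotomy p.2 p'.2 with h | h | h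
      · exact absurd h (key p hp p' hp' he)
      · exact h
      · exact absurd h (key p' hp' p hp he.symm)

theorem tt_zero_avg {B : ℝ} {L : ℕ} (hms : StrictMono ms)
    (hA : ∀ b, Supp (A b) (ms b) (ms (b + 1))) (hL : 0 < L) (hB : 0 ≤ B)
    (hN : ∀ b, NB n (A b) B) : TT n 0 ((L : ℝ)⁻¹ • ∑ b ∈ range L, A b) B (B / L) := by
  classical
  intro Q s β σ hF hQ hσ hs
  have hL' : (0 : ℝ) < L := by exact_mod_cast hL
  rcases Q.eq_empty_or_nonempty with rfl | ⟨q, hq⟩
  · rw [Finset.sum_empty]; positivity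
  have hQ1 : Q = {q} := Finset.eq_singleton_iff_unique_mem.2
    ⟨hq, fun x hx => Finset.card_le_one.1 hQ x hx q hq⟩
  rw [hQ1, Finset.sum_singleton]
  obtain ⟨R, f, hf, hb, hc, hβ⟩ := (hF.tr q hq).inv (hF.two q hq)
  have hl2 : (2 : ℝ) ≤ s q := by exact_mod_cast hF.two q hq
  have hl0 : (0 : ℝ) < s q := by linarith
  have hcl : (R.card : ℝ) ≤ s q := by exact_mod_cast hc
  rw [hβ, pr_mul_left, pr_sum_left]
  simp only [pr_smul, pr_sum]
  rw [← Finset.mul_sum, ← Finset.sum_product' R (range L) (fun r b => pr jj (f r) (A b)),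
    ← Finset.sum_filter_ne_zero]
  have h1 := Finset.sum_le_card_nsmul
    ((R ×ˢ range L).filter fun p => pr jj (f p.1) (A p.2) ≠ 0)
    (fun p => pr jj (f p.1) (A p.2)) B fun p hp =>
      hN p.2 _ (hf p.1 (Finset.mem_product.1 (Finset.mem_filter.1 hp).1).1)
  have h2 : (((R ×ˢ range L).filter fun p => pr jj (f p.1) (A p.2) ≠ 0).card : ℝ)
      ≤ L + R.card := by exact_mod_cast card_meet hms hA R f hb L
  rw [nsmul_eq_mul] at h1
  have h3 := h1.trans (mul_le_mul_of_nonneg_right (h2.trans (add_le_add le_rfl hcl)) hB)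
  have h4 : B / s q ≤ B / σ := div_le_div_of_nonneg_left hB hσ (hs q hq)
  calc _ ≤ (s q : ℝ)⁻¹ * ((L : ℝ)⁻¹ * ((L + s q) * B)) := by gcongr
    _ = B / s q + B / L := by field_simp
    _ ≤ _ := by linarith

theorem tt_succ_avg {B D : ℝ} {ν : ℕ} (hν : ν + 1 ≤ n) (hms : StrictMono ms)
    (hA : ∀ b, Supp (A b) (ms b) (ms (b + 1))) (hB : 0 ≤ B) (hD : 0 ≤ D)
    (hN : ∀ b, NB n (A b) B) (hT : ∀ b, TT n ν (A b) D (D / LL (ms b))) :
    TT n (ν + 1) ((LL (ms 0) : ℝ)⁻¹ • ∑ b ∈ range (LL (ms 0)), A b) (B + 3 * D)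
      ((B + 3 * D) / LL (ms 0)) := by
  classical
  intro Q s β σ hF hQ hσ hs
  set L := LL (ms 0) with hLdef
  have hL' : (0 : ℝ) < L := by rw [hLdef, LL_real]; have := bb_pos_real (ms 0); positivity
  have htr := hF.sum_tr hQ hν
  obtain ⟨d, g, hg1, hg2, hg3⟩ := hQ
  simp only [pr_smul, pr_sum]
  rw [← Finset.mul_sum, Finset.sum_comm, inv_mul_le_iff₀ hL']
  set F : ℕ → ℝ := fun b => ∑ q ∈ Q, pr jj (β q) (A b) with hFdef
  have hc0 : 0 ≤ D / σ + 3 * D / L := by positivity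
  have hsum : ∑ b ∈ range L, F b ≤ B + L * (D / σ + 3 * D / L) := by
    set S := (range L).filter fun b => F b ≠ 0 with hS
    rw [← Finset.sum_filter_ne_zero, ← hS]
    rcases S.eq_empty_or_nonempty with h0 | hne
    · rw [h0, Finset.sum_empty]; positivity
    set b0 := S.min' hne with hb0
    have hb0m : b0 ∈ S := S.min'_mem hne
    rw [← Finset.add_sum_erase _ _ hb0m]
    have h1 : F b0 ≤ B := by
      have := hN b0 _ htr
      rwa [pr_sum_left] at this
    obtain ⟨q, hq, hqne⟩ := Finset.exists_ne_zero_of_sum_ne_zero (Finset.mem_filter.1 hb0m).2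
    obtain ⟨r, hr, hβr⟩ := exists_of_pr_ne_zero hqne
    have h2 : ∀ b ∈ S.erase b0, F b ≤ D / σ + 3 * D / L := by
      intro b hb
      obtain ⟨hb1, hb2⟩ := Finset.mem_erase.1 hb
      have hlt : b0 < b := lt_of_le_of_ne (S.min'_le b hb2) (Ne.symm hb1)
      have h4 : ms (b0 + 1) ≤ ms b := hms.monotone hlt
      have h5 := (hA b0 r hr).2
      have := tail_lemma (hT b) hD (fun r hr => (hA b r hr).1) hF hg1 hg2
        ((hg3 q hq _ hβr).trans (jj_le_bb (by omega))) hσ hs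
      refine this.trans (add_le_add le_rfl ?_)
      have h6 : ms 0 < ms b := hms (by omega)
      have h7 : (L : ℝ) ≤ bb (ms b) := by
        have := jj_le_bb h6
        have := LL_lt_PP (ms 0)
        have := PP_le_jj (ms 0)
        exact_mod_cast (by omega : L ≤ bb (ms b))
      have hb1 := one_le_bb_real (ms b)
      exact div_le_div_of_nonneg_left (by positivity) hL' (by nlinarith)
    have h3 := Finset.sum_le_card_nsmul _ _ _ h2
    have h4 : ((S.erase b0).card : ℝ) ≤ L := by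
      have := Finset.card_le_card ((Finset.erase_subset b0 S).trans (Finset.filter_subset _ _))
      rw [Finset.card_range] at this
      exact_mod_cast this
    rw [nsmul_eq_mul] at h3
    have := mul_le_mul_of_nonneg_right h4 hc0
    linarith
  refine hsum.trans ?_
  have h5 : D / σ ≤ (B + 3 * D) / σ := div_le_div_of_nonneg_right (by linarith) hσ.le
  have e1 : (L : ℝ) * (D / σ + 3 * D / L) = L * (D / σ) + 3 * D := by field_simp
  have e2 : (L : ℝ) * ((B + 3 * D) / σ + (B + 3 * D) / L) = L * ((B + 3 * D) / σ) + (B + 3 * D) := by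
    field_simp
  rw [e1, e2]
  have := mul_le_mul_of_nonneg_left h5 hL'.le
  linarith

end blocks

end Pool.Agent.Lib.MP_7cd5bf_an
end

-- part Pool.Agent.Lib.MP_7cd5bf_an.Build
section

set_option autoImplicit false

namespace Pool.Agent.Lib.MP_7cd5bf_an

open Finset

theorem chain_facts {m0 m : ℕ} {E : ℕ → ℕ} (hE : ∀ m, m0 ≤ m → m < E m) (hm : m0 ≤ m) :
    (∀ p, m0 ≤ E^[p] m) ∧ StrictMono (fun p => E^[p] m) ∧ ∀ p, E^[p + 1] m = E (E^[p] m) := by
  have h3 : ∀ p, E^[p + 1] m = E (E^[p] m) := fun p => Function.iterate_succ_apply' E p m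
  have h1 : ∀ p, m0 ≤ E^[p] m := by
    intro p
    induction p with
    | zero => exact hm
    | succ p ih => rw [h3]; exact ih.trans (hE _ ih).le
  exact ⟨h1, strictMono_nat_of_lt_succ fun p => by rw [h3]; exact hE _ (h1 p), h3⟩

theorem pr_mono_sum {φ : ℕ → ℕ} {f : ℕ → ℝ} (hf : ∀ x, 0 ≤ f x) {S : Finset ℕ}
    {A : ℕ → ℕ →₀ ℝ} (hA : ∀ b r, 0 ≤ A b r) {b : ℕ} (hb : b ∈ S) :
    pr φ f (A b) ≤ pr φ f (∑ b ∈ S, A b) := by
  rw [pr_sum]
  exact Finset.single_le_sum (f := fun b => pr φ f (A b)) (fun b _ => pr_nonneg hf (hA b)) hb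

theorem PP_le_ii (m : ℕ) : PP m ≤ ii m := (PP_le_jj m).trans (jj_lt_ii m).le

theorem PP_pos (m : ℕ) : 0 < PP m := by simp [PP]

theorem LL_pos (m : ℕ) : 0 < LL m := by
  have := two_le_bb m
  have := bb_le_LL m
  omega

structure YP (n : ℕ) (D B v : ℝ) (m : ℕ) (a : ℕ →₀ ℝ) (E : ℕ) (f : C00) : Prop where
  lt : m < E
  supp : Supp a m E
  nonneg : ∀ r, 0 ≤ a r
  nb : NB (n + 1) a B
  tt : TT (n + 1) n a D (D / LL m)
  mem : f ∈ normingSet (n + 1)
  fnonneg : ∀ x, 0 ≤ f x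
  fsupp : ∀ x, f x ≠ 0 → ii m ≤ x ∧ x < PP E
  val : v ≤ pr ii f a

structure UP (n : ℕ) (B v : ℝ) (m : ℕ) (a : ℕ →₀ ℝ) (E : ℕ) (α : C00) : Prop where
  lt : m < E
  supp : Supp a m E
  nonneg : ∀ r, 0 ≤ a r
  nb : NB (n + 1) a B
  mem : (PP m, α) ∈ avgSet (n + 1)
  fnonneg : ∀ x, 0 ≤ α x
  fsupp : ∀ x, α x ≠ 0 → ii m ≤ x ∧ x < PP E
  val : v ≤ pr ii α a

structure ZP (n : ℕ) (B v : ℝ) (EU : ℕ → ℕ) (αU : ℕ → C00) (ν m : ℕ) (a : ℕ →₀ ℝ) (E : ℕ)
    (Q : Finset ℕ) : Prop where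
  lt : m < E
  supp : Supp a m E
  nonneg : ∀ r, 0 ≤ a r
  nb : NB (n + 1) a B
  tt : ∀ ν', ν = ν' + 1 → TT (n + 1) ν' a (2 * 4 ^ ν) (2 * 4 ^ ν / LL m)
  range : ∀ q ∈ Q, m ≤ q ∧ EU q ≤ E
  pair : ∀ q ∈ Q, ∀ q' ∈ Q, q < q' → EU q ≤ q'
  sch : Q.image (fun q => minSupp (αU q)) ∈ schreier ν
  sch' : ∀ ν', ν = ν' + 1 → insert (LL m + 1) (Q.image fun q => minSupp (αU q)) ∈ schreier ν
  val : v ≤ ∑ q ∈ Q, pr ii (αU q) a

theorem build_U {n m0 : ℕ} {D B v R : ℝ} (hD : 0 ≤ D) (hB : 0 ≤ B) (hR : 0 < R)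
    (hRm : R ≤ bb m0) (hY : ∀ m, m0 ≤ m → ∃ a E f, YP n D B v m a E f) :
    ∀ m, m0 ≤ m → ∃ a E α, UP n (B + 8 * D / R) v m a E α := by
  choose! aY EY fY hY using hY
  intro m hm
  obtain ⟨h1, h2, h3⟩ := chain_facts (fun m hm => (hY m hm).lt) hm
  set ms : ℕ → ℕ := fun p => EY^[p] m with hms
  have h3' : ∀ p, ms (p + 1) = EY (ms p) := h3
  have hms0 : ms 0 = m := rfl
  have hY' : ∀ p, YP n D B v (ms p) (aY (ms p)) (ms (p + 1)) (fY (ms p)) := fun p => by
    rw [h3']; exact hY _ (h1 p)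
  have hP : (0 : ℝ) < PP m := by exact_mod_cast PP_pos m
  refine ⟨∑ p ∈ range (PP m), aY (ms p), ms (PP m),
    (PP m : ℝ)⁻¹ • ∑ p ∈ range (PP m), fY (ms p), h2 (PP_pos m),
    supp_sum h2 (fun p => (hY' p).supp) _, fun r => ?_, ?_, ?_, fun x => ?_, fun x hx => ?_, ?_⟩
  · rw [Finsupp.finsetSum_apply]
    exact Finset.sum_nonneg fun p _ => (hY' p).nonneg r
  · refine (c0_sum h2 (fun p => (hY' p).supp) hB hD (fun p => (hY' p).nb)
      (fun p => (hY' p).tt) _).mono (add_le_add le_rfl ?_)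
    have e : (jj (ms 0) : ℝ) = (PP m : ℝ) ^ 3 := by rw [hms0, jj_eq]; push_cast; ring
    have hRP : R ≤ PP m := by
      refine hRm.trans ?_
      have := bb_strictMono.monotone hm
      have := bb_le_LL m
      have := LL_lt_PP m
      exact_mod_cast (by omega : bb m0 ≤ PP m)
    have hP1 : (1 : ℝ) ≤ PP m := by exact_mod_cast PP_pos m
    have e2 : (PP m : ℝ) * (8 * D / (PP m : ℝ) ^ 3) = 8 * D / (PP m : ℝ) ^ 2 := by field_simp
    rw [e, e2]
    exact div_le_div_of_nonneg_left (by positivity) hR (by nlinarith)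
  · refine avg_mem (l := PP m) (d := bb m ^ 3 + 1) (f := fun p => fY (ms p))
      (fun p => (hY' p).mem) (fun p p' h x hx y hy => ?_) (by simp [PP]) (by simp [PP])
    have a1 := ((hY' p).fsupp x (Finsupp.mem_support_iff.1 hx)).2
    have a2 := ((hY' p').fsupp y (Finsupp.mem_support_iff.1 hy)).1
    have a3 : PP (ms (p + 1)) ≤ PP (ms p') := PP_strictMono.monotone (h2.monotone h)
    have a4 := PP_le_ii (ms p')
    omega
  · rw [Finsupp.smul_apply, Finsupp.finsetSum_apply, smul_eq_mul]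
    exact mul_nonneg (by positivity) (Finset.sum_nonneg fun p _ => (hY' p).fnonneg x)
  · rw [Finsupp.smul_apply, Finsupp.finsetSum_apply, smul_eq_mul] at hx
    obtain ⟨p, hp, hpx⟩ := Finset.exists_ne_zero_of_sum_ne_zero (right_ne_zero_of_mul hx)
    obtain ⟨a1, a2⟩ := (hY' p).fsupp x hpx
    have a3 : PP (ms (p + 1)) ≤ PP (ms (PP m)) :=
      PP_strictMono.monotone (h2.monotone (Finset.mem_range.1 hp))
    have a4 : ii (ms 0) ≤ ii (ms p) := ii_strictMono.monotone (h2.monotone (Nat.zero_le p))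
    rw [hms0] at a4
    omega
  · have e : (((PP m : ℝ)⁻¹ • ∑ p ∈ range (PP m), fY (ms p) : C00) : ℕ → ℝ)
        = fun x => (PP m : ℝ)⁻¹ * ∑ p ∈ range (PP m), fY (ms p) x := by
      funext x
      rw [Finsupp.smul_apply, Finsupp.finsetSum_apply, smul_eq_mul]
    rw [e, pr_mul_left, pr_sum_left, le_inv_mul_iff₀ hP]
    have := Finset.card_nsmul_le_sum (range (PP m))
      (fun p => pr ii (fY (ms p)) (∑ p ∈ range (PP m), aY (ms p))) v fun p hp =>
        (hY' p).val.trans (pr_mono_sum (A := fun p => aY (ms p)) (hY' p).fnonneg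
          (fun p => (hY' p).nonneg) hp)
    simpa using this

theorem UP.minSupp_mem {n : ℕ} {B v : ℝ} (hv : 0 < v) {m : ℕ} {a : ℕ →₀ ℝ} {E : ℕ} {α : C00}
    (h : UP n B v m a E α) : ii m ≤ minSupp α ∧ minSupp α < PP E := by
  refine h.fsupp _ (Pool.Agent.Lib.MP_7cd5bf_an.minSupp_mem fun h0 => ?_)
  have := h.val
  rw [h0, pr_eq_zero (fun _ _ => rfl)] at this
  linarith

theorem build_Z {n m0 : ℕ} {B v : ℝ} (hB : 0 ≤ B) (hB2 : B ≤ 2) (hv : 0 < v)
    {aU : ℕ → ℕ →₀ ℝ} {EU : ℕ → ℕ} {αU : ℕ → C00}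
    (hU : ∀ m, m0 ≤ m → UP n B v m (aU m) (EU m) (αU m)) :
    ∀ ν, ν ≤ n + 1 → ∀ m, m0 ≤ m → ∃ a E Q, ZP n B v EU αU ν m a E Q := by
  classical
  intro ν
  induction ν with
  | zero =>
    intro _ m hm
    have h := hU m hm
    refine ⟨aU m, EU m, {m}, h.lt, h.supp, h.nonneg, h.nb, by omega, by simp, ?_, ?_, by omega,
      by simpa using h.val⟩
    · intro q hq q' hq' hlt
      rw [Finset.mem_singleton] at hq hq'
      omega
    · rw [Finset.image_singleton]
      refine singleton_mem ?_ 0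
      have := (h.minSupp_mem hv).1
      have := ii_eq m
      omega
  | succ ν ih =>
    intro hν m hm
    have hZ := ih (by omega)
    choose! aZ EZ QZ hZ using hZ
    obtain ⟨h1, h2, h3⟩ := chain_facts (fun m hm => (hZ m hm).lt) hm
    set ms : ℕ → ℕ := fun p => EZ^[p] m with hms
    have h1' : ∀ p, m0 ≤ ms p := h1
    have h3' : ∀ p, ms (p + 1) = EZ (ms p) := h3
    have hms0 : ms 0 = m := rfl
    have hZ' : ∀ p, ZP n B v EU αU ν (ms p) (aZ (ms p)) (ms (p + 1)) (QZ (ms p)) := fun p => by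
      rw [h3']; exact hZ _ (h1 p)
    have hL : (0 : ℝ) < LL m := by exact_mod_cast LL_pos m
    have hQm0 : ∀ p, ∀ q ∈ QZ (ms p), m0 ≤ q := fun p q hq =>
      (h1' p).trans ((hZ' p).range q hq).1
    have hG : ∀ p, ∀ x ∈ (QZ (ms p)).image (fun q => minSupp (αU q)),
        ii (ms p) ≤ x ∧ x < PP (ms (p + 1)) := by
      intro p x hx
      obtain ⟨q, hq, rfl⟩ := Finset.mem_image.1 hx
      obtain ⟨a1, a2⟩ := (hU q (hQm0 p q hq)).minSupp_mem hv
      obtain ⟨a3, a4⟩ := (hZ' p).range q hq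
      exact ⟨(ii_strictMono.monotone a3).trans a1, a2.trans_le (PP_strictMono.monotone a4)⟩
    have hGs : ∀ b b', b < b' → ∀ x ∈ (QZ (ms b)).image (fun q => minSupp (αU q)),
        ∀ y ∈ (QZ (ms b')).image (fun q => minSupp (αU q)), x < y := by
      intro b b' h x hx y hy
      have a1 := (hG b x hx).2
      have a2 := (hG b' y hy).1
      have a3 : PP (ms (b + 1)) ≤ PP (ms b') := PP_strictMono.monotone (h2.monotone h)
      have a4 := PP_le_ii (ms b')
      omega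
    have hGl : ∀ b, ∀ y ∈ (QZ (ms b)).image (fun q => minSupp (αU q)), LL m + 1 < y := by
      intro b y hy
      have a2 := (hG b y hy).1
      have a4 : ii (ms 0) ≤ ii (ms b) := ii_strictMono.monotone (h2.monotone (Nat.zero_le b))
      rw [hms0] at a4
      have := LL_lt_PP m
      have := PP_le_ii m
      omega
    have hlt : ∀ b b', b < b' → ∀ q ∈ QZ (ms b), ∀ q' ∈ QZ (ms b'), EU q ≤ q' := by
      intro b b' h q hq q' hq'
      have a1 := ((hZ' b).range q hq).2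
      have a2 := ((hZ' b').range q' hq').1
      have a3 : ms (b + 1) ≤ ms b' := h2.monotone h
      omega
    refine ⟨(LL m : ℝ)⁻¹ • ∑ p ∈ range (LL m), aZ (ms p), ms (LL m),
      (range (LL m)).biUnion fun p => QZ (ms p), h2 (LL_pos m),
      (supp_sum h2 (fun p => (hZ' p).supp) _).smul _, fun r => ?_,
      nb_avg (LL_pos m) fun p => (hZ' p).nb, ?_, ?_, ?_, ?_, ?_, ?_⟩
    · rw [Finsupp.smul_apply, Finsupp.finsetSum_apply, smul_eq_mul]
      exact mul_nonneg (by positivity) (Finset.sum_nonneg fun p _ => (hZ' p).nonneg r)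
    · intro ν' hν'
      obtain rfl : ν = ν' := by omega
      cases ν with
      | zero =>
        refine (tt_zero_avg h2 (fun p => (hZ' p).supp) (LL_pos m) hB fun p => (hZ' p).nb).mono
          (by norm_num; linarith) (div_le_div_of_nonneg_right (by norm_num; linarith) hL.le)
      | succ ν =>
        have h4 : (1 : ℝ) ≤ 4 ^ (ν + 1) := one_le_pow₀ (by norm_num)
        have h5 : B + 3 * (2 * 4 ^ (ν + 1)) ≤ 2 * 4 ^ (ν + 1 + 1) := by
          rw [pow_succ (4 : ℝ) (ν + 1)]; linarith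
        exact (tt_succ_avg (by omega) h2 (fun p => (hZ' p).supp) hB (by positivity)
          (fun p => (hZ' p).nb) fun p => (hZ' p).tt ν rfl).mono h5
          (div_le_div_of_nonneg_right h5 hL.le)
    · intro q hq
      obtain ⟨b, hb, hqb⟩ := Finset.mem_biUnion.1 hq
      obtain ⟨a1, a2⟩ := (hZ' b).range q hqb
      exact ⟨(h2.monotone (Nat.zero_le b)).trans a1,
        a2.trans (h2.monotone (Finset.mem_range.1 hb))⟩
    · intro q hq q' hq' h
      obtain ⟨b, hb, hqb⟩ := Finset.mem_biUnion.1 hq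
      obtain ⟨b', hb', hqb'⟩ := Finset.mem_biUnion.1 hq'
      rcases lt_trichotomy b b' with hbb | rfl | hbb
      · exact hlt b b' hbb q hqb q' hqb'
      · exact (hZ' b).pair q hqb q' hqb' h
      · have a1 := hlt b' b hbb q' hqb' q hqb
        have a2 := (hU q' (hQm0 b' q' hqb')).lt
        omega
    · rw [Finset.biUnion_image]
      obtain ⟨d, hd⟩ : ∃ d, LL m = d + 1 := Nat.exists_eq_succ_of_ne_zero (LL_pos m).ne'
      rw [hd]
      exact schreier_union (fun b => (hZ' b).sch) hGs fun x hx => by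
        have := hGl 0 x hx
        omega
    · intro _ _
      rw [Finset.biUnion_image]
      exact schreier_insert (fun b => (hZ' b).sch) hGs le_rfl hGl
    · rw [Finset.sum_biUnion]
      · simp only [pr_smul]
        simp only [← Finset.mul_sum]
        rw [le_inv_mul_iff₀ hL]
        have := Finset.card_nsmul_le_sum (range (LL m))
          (fun b => ∑ q ∈ QZ (ms b), pr ii (αU q) (∑ p ∈ range (LL m), aZ (ms p))) v fun b hb =>
            (hZ' b).val.trans (Finset.sum_le_sum fun q hq =>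
              pr_mono_sum (A := fun p => aZ (ms p)) (hU q (hQm0 b q hq)).fnonneg
                (fun p => (hZ' p).nonneg) hb)
        simpa using this
      · intro b _ b' _ hne
        refine Finset.disjoint_left.2 fun q hq hq' => ?_
        have a2 := (hU q (hQm0 b q hq)).lt
        rcases lt_or_gt_of_ne hne with h | h
        · have := hlt b b' h q hq q hq'
          omega
        · have := hlt b' b h q hq' q hq
          omega

theorem schreier_nonempty : ∀ (k : ℕ) (H : Finset ℕ), H ∈ schreier k → H.Nonempty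
  | 0, _, ⟨_, _, h⟩ => by rw [h]; simp
  | k + 1, _, ⟨_, F, hF, _, _, h⟩ => by
    obtain ⟨x, hx⟩ := schreier_nonempty k _ (hF 0)
    exact ⟨x, h ▸ Finset.mem_biUnion.2 ⟨0, Finset.mem_univ _, hx⟩⟩

theorem unit_supp {i x : ℕ} (h : unitVec i x ≠ 0) : x = i := by
  by_contra hne
  exact h (Finsupp.single_eq_of_ne hne)

theorem build_Y0 (n : ℕ) {D : ℝ} (hD : 1 ≤ D) (m : ℕ) :
    YP n D 1 1 m (Finsupp.single m 1) (m + 1) (unitVec (ii m)) := by
  refine ⟨by omega, fun r hr => ?_, fun r => ?_, nb_single _ _,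
    (tt_single _ _ _).mono hD (by positivity), unit_mem _ (by simp [ii]), fun x => ?_,
    fun x hx => ?_, ?_⟩
  · have := unit_supp hr
    omega
  · rw [Finsupp.single_apply]; split_ifs <;> norm_num
  · rw [unitVec, Finsupp.single_apply]; split_ifs <;> norm_num
  · rw [unit_supp hx]; exact ⟨le_rfl, ii_lt_PP m⟩
  · rw [pr_single]; simp [unitVec]

theorem build_Y {n m0 : ℕ} {B v R : ℝ} (hB : 1 ≤ B) (hB2 : B ≤ 2) (hv : 0 < v) (hR : 0 < R)
    (hRm : R ≤ bb m0) (hU : ∀ m, m0 ≤ m → ∃ a E α, UP n B v m a E α) :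
    ∀ m, m0 ≤ m → ∃ a E f,
      YP n (1 + 2 * 4 ^ (n + 1)) (B + 8 * (1 + 2 * 4 ^ (n + 1)) / R) (v + 1 / 2) m a E f := by
  classical
  choose! aU EU αU hU using hU
  intro m hm
  obtain ⟨aZ, E, Q, hZ⟩ := build_Z (by linarith) hB2 hv hU (n + 1) le_rfl (m + 1) (by omega)
  have hQm : ∀ q ∈ Q, m + 1 ≤ q := fun q hq => (hZ.range q hq).1
  have hQ0 : ∀ q ∈ Q, m0 ≤ q := fun q hq => by have := hQm q hq; omega
  have hmQ : m ∉ Q := fun h => by have := hQm m h; omega
  have hss : Supp (Finsupp.single m (1 : ℝ)) m (m + 1) := fun r hr => by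
    have := unit_supp hr
    omega
  have hsn : ∀ r, (0 : ℝ) ≤ Finsupp.single m (1 : ℝ) r := fun r => by
    rw [Finsupp.single_apply]; split_ifs <;> norm_num
  set h : C00 := ((2 : ℕ) : ℝ)⁻¹ • unitVec (ii m) with hh
  have hhx : ∀ x, h x ≠ 0 → x = ii m := fun x hx => by
    rw [hh, Finsupp.smul_apply, smul_eq_mul] at hx
    exact unit_supp (right_ne_zero_of_mul hx)
  have hhv : h (ii m) = 1 / 2 := by simp [hh, unitVec]
  have hhn : ∀ x, 0 ≤ h x := fun x => by
    by_cases hx : h x = 0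
    · exact hx.ge
    · rw [hhx x hx, hhv]; norm_num
  let α : ℕ → C00 := fun q => if q = m then h else αU q
  let s : ℕ → ℕ := fun q => if q = m then 2 else PP q
  have hαm : α m = h := if_pos rfl
  have hαq : ∀ q ∈ Q, α q = αU q := fun q hq => if_neg fun e : q = m => hmQ (e ▸ hq)
  have hsm : s m = 2 := if_pos rfl
  have hsq : ∀ q ∈ Q, s q = PP q := fun q hq => if_neg fun e : q = m => hmQ (e ▸ hq)
  have hαsupp : ∀ q ∈ insert m Q, ∀ x, α q x ≠ 0 → ii q ≤ x ∧
      (∀ q' ∈ insert m Q, q < q' → q' ∈ Q ∧ x < PP q') ∧ x < PP E := by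
    intro q hq x hx
    have hq'Q : ∀ q' ∈ insert m Q, q < q' → q' ∈ Q := by
      intro q' hq' hlt
      rcases Finset.mem_insert.1 hq' with rfl | h'
      · rcases Finset.mem_insert.1 hq with rfl | h''
        · omega
        · have := hQm q h''; omega
      · exact h'
    rcases Finset.mem_insert.1 hq with rfl | hqQ
    · rw [hαm] at hx
      rw [hhx x hx]
      refine ⟨le_rfl, fun q' hq' hlt => ⟨hq'Q q' hq' hlt, ?_⟩, ?_⟩
      · exact (ii_lt_PP q).trans_le (PP_strictMono.monotone hlt)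
      · exact (ii_lt_PP q).trans (PP_strictMono hZ.lt)
    · rw [hαq q hqQ] at hx
      obtain ⟨a1, a2⟩ := (hU q (hQ0 q hqQ)).fsupp x hx
      refine ⟨a1, fun q' hq' hlt => ⟨hq'Q q' hq' hlt, ?_⟩, ?_⟩
      · exact a2.trans_le (PP_strictMono.monotone (hZ.pair q hqQ q' (hq'Q q' hq' hlt) hlt))
      · exact a2.trans_le (PP_strictMono.monotone (hZ.range q hqQ).2)
  have hαn : ∀ q ∈ insert m Q, ∀ x, 0 ≤ α q x := by
    intro q hq x
    rcases Finset.mem_insert.1 hq with rfl | hqQ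
    · rw [hαm]; exact hhn x
    · rw [hαq q hqQ]; exact (hU q (hQ0 q hqQ)).fnonneg x
  have hL1 : (0 : ℝ) < LL m := by exact_mod_cast LL_pos m
  have hL2 : (LL m : ℝ) ≤ LL (m + 1) := by exact_mod_cast LL_strictMono.monotone (Nat.le_succ m)
  have hD : (0 : ℝ) ≤ 2 * 4 ^ (n + 1) := by positivity
  refine ⟨Finsupp.single m 1 + aZ, E, ∑ q ∈ insert m Q, α q, by have := hZ.lt; omega,
    fun r hr => ?_, fun r => add_nonneg (hsn r) (hZ.nonneg r), ?_, ?_, ?_, fun x => ?_,
    fun x hx => ?_, ?_⟩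
  · have hE := hZ.lt
    rw [Finsupp.add_apply] at hr
    by_cases h1 : aZ r = 0
    · rw [h1, add_zero] at hr
      have := hss r hr
      omega
    · have := hZ.supp r h1
      omega
  · refine (two_block hss (fun r hr => (hZ.supp r hr).1) (Nat.lt_succ_self m) (by linarith) hD
      ((nb_single _ _).mono hB) hZ.nb (hZ.tt n rfl)).mono (add_le_add le_rfl ?_)
    have hRj : R ≤ jj m := by
      refine hRm.trans ?_
      exact_mod_cast bb_strictMono.monotone (by omega : m0 ≤ m + 1)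
    exact div_le_div₀ (by positivity) (by linarith) hR hRj
  · refine ((tt_single _ _ _).add (hZ.tt n rfl)).mono le_rfl ?_
    rw [zero_add]
    exact div_le_div₀ (by positivity) (by linarith) hL1 hL2
  · refine sum_mem (s := s) (Finset.insert_nonempty m Q) (fun q hq => ?_)
      (fun q hq q' hq' hlt x hx y hy => ?_) ?_ (fun q hq q' hq' hlt => ?_)
      (fun q hq q' hq' hlt => ?_)
    · rcases Finset.mem_insert.1 hq with rfl | hqQ
      · rw [hαm, hsm]
        refine Set.mem_iUnion.2 ⟨1, Or.inr ⟨0, fun _ => unitVec (ii q),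
          fun _ => ⟨ii q, by simp [ii], Or.inl rfl⟩, fun a b hab => ?_, le_rfl, by norm_num,
          by simp [hh]⟩⟩
        exact absurd hab (by have := a.2; have := b.2; simp only [Fin.lt_def]; omega)
      · rw [hαq q hqQ, hsq q hqQ]; exact (hU q (hQ0 q hqQ)).mem
    · have a1 := ((hαsupp q hq x (Finsupp.mem_support_iff.1 hx)).2.1 q' hq' hlt).2
      have a2 := (hαsupp q' hq' y (Finsupp.mem_support_iff.1 hy)).1
      have a3 := PP_le_ii q'
      omega
    · have e1 : minSupp (α m) = LL (m + 1) + 1 := by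
        rw [hαm, ← ii_eq]
        refine hhx _ (minSupp_mem fun h0 => ?_)
        rw [h0] at hhv
        norm_num at hhv
      have e2 : Q.image (fun q => minSupp (α q)) = Q.image (fun q => minSupp (αU q)) :=
        Finset.image_congr fun q hq => by simp only [hαq q hq]
      rw [Finset.image_insert, e1, e2]
      exact hZ.sch' n rfl
    · rcases Finset.mem_insert.1 hq' with rfl | hq'Q
      · rcases Finset.mem_insert.1 hq with rfl | h''
        · omega
        · have := hQm q h''; omega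
      · rw [hsq q' hq'Q]
        rcases Finset.mem_insert.1 hq with rfl | hqQ
        · rw [hsm]
          have := LL_pos q'
          have := LL_lt_PP q'
          omega
        · rw [hsq q hqQ]; exact PP_strictMono hlt
    · have hq'Q : q' ∈ Q := by
        rcases Finset.mem_insert.1 hq' with rfl | h'
        · rcases Finset.mem_insert.1 hq with rfl | h''
          · omega
          · have := hQm q h''; omega
        · exact h'
      rw [hsq q' hq'Q, maxSupp]
      exact (Finset.sup_lt_iff (PP_pos q')).2 fun x hx =>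
        ((hαsupp q hq x (Finsupp.mem_support_iff.1 hx)).2.1 q' hq' hlt).2
  · rw [Finsupp.finsetSum_apply]
    exact Finset.sum_nonneg fun q hq => hαn q hq x
  · rw [Finsupp.finsetSum_apply] at hx
    obtain ⟨q, hq, hqx⟩ := Finset.exists_ne_zero_of_sum_ne_zero hx
    obtain ⟨a1, _, a2⟩ := hαsupp q hq x hqx
    refine ⟨le_trans (ii_strictMono.monotone ?_) a1, a2⟩
    rcases Finset.mem_insert.1 hq with rfl | hqQ
    · exact le_rfl
    · have := hQm q hqQ; omega
  · have e : ((∑ q ∈ insert m Q, α q : C00) : ℕ → ℝ) = fun x => ∑ q ∈ insert m Q, α q x := by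
      funext x
      rw [Finsupp.finsetSum_apply]
    rw [e, pr_sum_left, Finset.sum_insert hmQ, hαm, pr_add, pr_single, hhv]
    have a1 : 0 ≤ pr ii h aZ := pr_nonneg hhn hZ.nonneg
    have a2 : ∑ q ∈ Q, pr ii (αU q) aZ ≤ ∑ q ∈ Q, pr ii (α q) (Finsupp.single m 1 + aZ) := by
      refine Finset.sum_le_sum fun q hq => ?_
      rw [hαq q hq, pr_add]
      have := pr_nonneg (φ := ii) (hU q (hQ0 q hq)).fnonneg hsn
      linarith
    have a3 := hZ.val
    linarith

theorem exists_good (n K : ℕ) :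
    ∃ (a : ℕ →₀ ℝ) (f : C00), NB (n + 1) a 2 ∧ f ∈ normingSet (n + 1) ∧
      1 + (K : ℝ) / 2 ≤ pr ii f a := by
  set D : ℝ := 1 + 2 * 4 ^ (n + 1) with hD
  have hD1 : 1 ≤ D := by
    have : (0 : ℝ) ≤ 2 * 4 ^ (n + 1) := by positivity
    linarith
  set R : ℝ := 16 * D * (K + 1) with hR
  have hR0 : 0 < R := by positivity
  set m0 := ⌈R⌉₊ with hm0
  have hRm : R ≤ bb m0 := (Nat.le_ceil R).trans (by exact_mod_cast le_bb m0)
  set ε : ℝ := 8 * D / R with hε
  have hε0 : 0 ≤ ε := by positivity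
  have hεK : 2 * ε * (K + 1) = 1 := by rw [hε, hR]; field_simp; norm_num
  have key : ∀ k, k ≤ K → ∀ m, m0 ≤ m → ∃ a E f, YP n D (1 + k * (2 * ε)) (1 + k / 2) m a E f := by
    intro k
    induction k with
    | zero => intro _ m _; exact ⟨_, _, _, by simpa using build_Y0 n hD1 m⟩
    | succ k ih =>
      intro hk m hm
      have hk' : (k : ℝ) + 1 ≤ K := by exact_mod_cast hk
      have hk0 : (0 : ℝ) ≤ k := Nat.cast_nonneg k
      have hU := build_U (by linarith) (by positivity) hR0 hRm (ih (by omega))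
      have := build_Y (by nlinarith) (by nlinarith) (by positivity) hR0 hRm hU m hm
      have e1 : (1 : ℝ) + k * (2 * ε) + 8 * D / R + 8 * D / R = 1 + ((k + 1 : ℕ) : ℝ) * (2 * ε) := by
        push_cast; rw [← hε]; ring
      have e2 : (1 : ℝ) + k / 2 + 1 / 2 = 1 + ((k + 1 : ℕ) : ℝ) / 2 := by push_cast; ring
      rw [← e1, ← e2]; exact this
  obtain ⟨a, E, f, h⟩ := key K le_rfl m0 le_rfl
  exact ⟨a, f, h.nb.mono (by nlinarith), h.mem, h.val⟩

theorem pairing_comb (φ : ℕ → ℕ) (f : C00) (a : ℕ →₀ ℝ) : pairing f (comb φ a) = pr φ f a := by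
  have e : ∀ x : C00, pairing f x = Finsupp.linearCombination ℝ (fun i => f i) x := fun x => by
    simp [pairing, Finsupp.linearCombination_apply, Finsupp.sum, mul_comm]
  rw [e, comb, Finsupp.sum, map_sum, pr_def]
  exact Finset.sum_congr rfl fun r _ => by simp [unitVec]

theorem bddAbove_pairing (n : ℕ) (x : C00) :
    BddAbove ((fun f => pairing f x) '' normingSet n) := by
  refine ⟨∑ i ∈ x.support, |x i|, ?_⟩
  rintro _ ⟨f, hf, rfl⟩
  refine Finset.sum_le_sum fun i _ => (le_abs_self _).trans ?_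
  rw [abs_mul]
  exact mul_le_of_le_one_left (abs_nonneg _) ((tr_of_mem hf).abs_le_one i)

theorem not_equiv (n : ℕ) : ¬ EquivSubseq (n + 1) ii jj := by
  rintro ⟨C, hC, h⟩
  obtain ⟨a, f, h1, h2, h3⟩ := exists_good n ⌈4 * C⌉₊
  have hup : xNorm (n + 1) (comb jj a) ≤ 2 := by
    refine csSup_le ⟨_, f, h2, rfl⟩ ?_
    rintro _ ⟨g, hg, rfl⟩
    simp only [pairing_comb]
    exact h1 g (tr_of_mem hg)
  have hlow : pr ii f a ≤ xNorm (n + 1) (comb ii a) :=
    le_csSup (bddAbove_pairing _ _) ⟨f, h2, pairing_comb _ _ _⟩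
  have h4 := (h a).2
  have h5 := Nat.le_ceil (4 * C)
  nlinarith

end Pool.Agent.Lib.MP_7cd5bf_an
end
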