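import Mathlib

set_option autoImplicit false

/-!
Definitions of the space of the problem.  Coordinates are natural numbers, and only the
coordinates `i ≥ 1` carry unit vectors, so that the index set is `{1, 2, 3, ...}`.
-/

namespace Pool.Agent.Lib.MP_7cd5bf_an

/-- The space `c₀₀` of finitely supported real sequences. -/
abbrev C00 : Type := ℕ →₀ ℝ

/-- The unit vector `e_i`. -/
noncomputable def unitVec (i : ℕ) : C00 := Finsupp.single i 1

/-- `f < g`: every point of the support of `f` is smaller than every point of the support of `g`. -/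
def Before (f g : C00) : Prop := ∀ x ∈ f.support, ∀ y ∈ g.support, x < y

/-- The minimum of the support. -/
noncomputable def minSupp (f : C00) : ℕ := sInf (f.support : Set ℕ)

/-- The maximum of the support. -/
def maxSupp (f : C00) : ℕ := f.support.sup id

/-- The Schreier families: `S_0` consists of the singletons, and `S_(k+1)` of the unions
`F_1 ∪ ... ∪ F_D` (`D = d + 1 ≥ 1`) of successive members of `S_k` with `D ≤ min F_1`. -/
def schreier : ℕ → Set (Finset ℕ)
  | 0 => {F | ∃ x, 1 ≤ x ∧ F = {x}}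
  | k + 1 => {F | ∃ (d : ℕ) (G : Fin (d + 1) → Finset ℕ), (∀ q, G q ∈ schreier k) ∧
      (∀ q q', q < q' → ∀ x ∈ G q, ∀ y ∈ G q', x < y) ∧ (∀ x ∈ G 0, d + 1 ≤ x) ∧
      F = Finset.univ.biUnion G}

/-- `α` is an `α`-average of size `l` of members of `V`:
`α = (1/l) (f_1 + ... + f_D)` with `f_1 < ... < f_D` in `V`, `2 ≤ l`, `1 ≤ D = d + 1 ≤ l`. -/
def IsAverage (V : Set C00) (l : ℕ) (α : C00) : Prop :=
  ∃ (d : ℕ) (f : Fin (d + 1) → C00), (∀ q, f q ∈ V) ∧ (∀ q q', q < q' → Before (f q) (f q')) ∧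
    2 ≤ l ∧ d + 1 ≤ l ∧ α = (l : ℝ)⁻¹ • ∑ q, f q

/-- `g = α_1 + ... + α_D` (`D = d + 1 ≥ 1`) where the pairs (size, average) `(s_q, α_q)` lie in `A`,
`α_1 < ... < α_D`, the minima of the supports form a member of `S_n`, the sizes increase strictly
and `s_q > max supp α_(q-1)` for `q > 1`. -/
def IsSchreierSum (n : ℕ) (A : Set (ℕ × C00)) (g : C00) : Prop :=
  ∃ (d : ℕ) (s : Fin (d + 1) → ℕ) (α : Fin (d + 1) → C00), (∀ q, (s q, α q) ∈ A) ∧
    (∀ q q', q < q' → Before (α q) (α q')) ∧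
    (Finset.univ.image fun q => minSupp (α q)) ∈ schreier n ∧ StrictMono s ∧
    (∀ q : Fin d, maxSupp (α q.castSucc) < s q.succ) ∧ g = ∑ q, α q

/-- The pair (`W_m`, set of pairs (size, `α`-average) of the `α`-averages in `W_m`). -/
def stage (n : ℕ) : ℕ → Set C00 × Set (ℕ × C00)
  | 0 => ({f | ∃ i, 1 ≤ i ∧ (f = unitVec i ∨ f = -unitVec i)}, ∅)
  | m + 1 =>
      ((stage n m).1 ∪ {α | ∃ l, IsAverage (stage n m).1 l α} ∪
          {g | IsSchreierSum n (stage n m).2 g},
        (stage n m).2 ∪ {p | IsAverage (stage n m).1 p.1 p.2})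

/-- The norming set `W = ⋃ W_m`. -/
def normingSet (n : ℕ) : Set C00 := ⋃ m, (stage n m).1

/-- `f(x) = ∑ f_i x_i`. -/
noncomputable def pairing (f x : C00) : ℝ := x.sum fun i c => f i * c

/-- The norm `‖x‖ = sup {f(x) : f ∈ W}` on `c₀₀`. -/
noncomputable def xNorm (n : ℕ) (x : C00) : ℝ := sSup ((fun f => pairing f x) '' normingSet n)

/-- The vector `∑ a_m e_(i m)`. -/
noncomputable def comb (i : ℕ → ℕ) (a : ℕ →₀ ℝ) : C00 := a.sum fun m c => c • unitVec (i m)

/-- The sequences `(e_(i m))` and `(e_(j m))` are equivalent. -/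
def EquivSubseq (n : ℕ) (i j : ℕ → ℕ) : Prop :=
  ∃ C : ℝ, 1 ≤ C ∧ ∀ a : ℕ →₀ ℝ,
    C⁻¹ * xNorm n (comb j a) ≤ xNorm n (comb i a) ∧ xNorm n (comb i a) ≤ C * xNorm n (comb j a)

end Pool.Agent.Lib.MP_7cd5bf_an
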